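import Pool.Agent.T6.H89.Speed.Core

set_option autoImplicit false

/-!
# Reading off the pattern of a schedule from its list of segments
-/

namespace Pool.Agent.T6.H89.Speed

open Pool.Agent.NPC Set

/-- total duration -/
noncomputable def dur (L : List (ℕ × ℚ × ℚ)) : ℝ := (L.map fun c => ((c.2.1 : ℚ) : ℝ)).sum

theorem dur_nonneg {L : List (ℕ × ℚ × ℚ)} (h : ∀ c ∈ L, 0 ≤ c.2.1) : 0 ≤ dur L := by
  unfold dur
  apply List.sum_nonneg
  intro x hx
  obtain ⟨c, hc, rfl⟩ := List.mem_map.1 hx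
  exact_mod_cast h c hc

theorem segAt_append (pre L : List (ℕ × ℚ × ℚ)) (h : ∀ c ∈ pre, 0 ≤ c.2.1) (u : ℝ)
    (hu : dur pre ≤ u) : segAt (pre ++ L) u = segAt L (u - dur pre) := by
  induction pre generalizing u with
  | nil => simp [dur]
  | cons c pre ih =>
    have h1 := dur_nonneg fun c' hc' => h c' (List.mem_cons_of_mem _ hc')
    have h2 : dur (c :: pre) = (c.2.1 : ℝ) + dur pre := by simp [dur]
    rw [h2] at hu ⊢
    have h3 : ¬ u < (c.2.1 : ℝ) := by linarith
    rw [List.cons_append, segAt, if_neg h3,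
      ih (fun c' hc' => h c' (List.mem_cons_of_mem _ hc')) _ (by linarith)]
    congr 1
    ring

theorem segAt_mem {L : List (ℕ × ℚ × ℚ)} {u : ℝ} (hu : 0 ≤ u)
    {c : ℕ × ℚ × ℚ} (hc : segAt L u = some c) : c ∈ L ∧ 0 < c.2.1 := by
  induction L generalizing u with
  | nil => simp [segAt] at hc
  | cons c' L ih =>
    rw [segAt] at hc
    split_ifs at hc with h1
    · have := Option.some.inj hc
      subst this
      refine ⟨List.mem_cons_self, ?_⟩
      have : (0 : ℝ) < (c'.2.1 : ℝ) := lt_of_le_of_lt hu h1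
      exact_mod_cast this
    · obtain ⟨h2, h3⟩ := ih (u := u - (c'.2.1 : ℝ)) (by linarith) hc
      exact ⟨List.mem_cons_of_mem _ h2, h3⟩

/-- the segment belongs to one of the two jobs and has positive duration -/
def relv (i1 i2 : ℕ) (c : ℕ × ℚ × ℚ) : Bool :=
  (decide (c.1 = i1) || decide (c.1 = i2)) && !(decide (c.2.1 = 0))

/-- the last relevant segment belongs to the job `i2` -/
def isA (L : List (ℕ × ℚ × ℚ)) (i1 i2 : ℕ) : Bool :=
  ((L.reverse.filter (relv i1 i2)).head?).any fun c => decide (c.1 = i2)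

variable {J : Jobs} {σ : Schedule J.length} {L : List (ℕ × ℚ × ℚ)}

theorem completion_lt_of_last (hd : Describes L σ) (hσ : σ.Feasible J) {i1 i2 : Fin J.length}
    (hw2 : 0 < wrk J i2) (hne : i1 ≠ i2) {pre post : List (ℕ × ℚ × ℚ)} {c : ℕ × ℚ × ℚ}
    (hL : L = pre ++ c :: post) (hc : c.1 = i1) (hc0 : c.2.1 ≠ 0)
    (hpost : ∀ c' ∈ post, 0 < c'.2.1 → c'.1 ≠ i2) :
    Schedule.completion J σ i2 < Schedule.completion J σ i1 := by
  have h0 : ∀ c' ∈ L, 0 ≤ c'.2.1 := fun c' hc' => (hd.1 c' hc').1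
  have h0p : ∀ c' ∈ pre, 0 ≤ c'.2.1 := fun c' hc' => h0 c' (by rw [hL]; simp [hc'])
  have hcpos : 0 < c.2.1 := lt_of_le_of_ne (h0 c (by rw [hL]; simp)) (Ne.symm hc0)
  have hcpos' : (0 : ℝ) < (c.2.1 : ℝ) := by exact_mod_cast hcpos
  have hx0 := dur_nonneg h0p
  -- the interval of the segment `c`
  have h1 : ∀ u, dur pre ≤ u → u < dur pre + (c.2.1 : ℝ) → segAt L u = some c := by
    intro u hu1 hu2
    rw [hL, segAt_append _ _ h0p _ hu1, segAt, if_pos (by linarith)]
  have h2 : ∀ u, dur pre ≤ u → u ∉ σ.at_ i2 := by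
    intro u hu hat
    have hu0 : 0 ≤ u := hx0.trans hu
    have h3 : σ.job u = some i2 := hat
    obtain ⟨c', hc', hc'i⟩ := ((hd.2 u hu0).1 i2).1 h3
    by_cases h4 : u < dur pre + (c.2.1 : ℝ)
    · rw [h1 u hu h4] at hc'
      have := Option.some.inj hc'
      subst this
      rw [hc] at hc'i
      exact hne (Fin.ext hc'i)
    · rw [hL, segAt_append _ _ h0p _ hu, segAt, if_neg (by linarith)] at hc'
      obtain ⟨h5, h6⟩ := segAt_mem (by linarith) hc'
      exact hpost c' h5 h6 hc'i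
  have h3 : Schedule.completion J σ i2 ≤ dur pre := by
    obtain ⟨t, ht⟩ := hσ.2 i2
    refine Schedule.completion_le hσ hw2 (ht.trans ?_)
    rw [Schedule.done_eq, Schedule.done_eq]
    refine MeasureTheory.lintegral_mono_set ?_
    rintro u ⟨hu1, hu2⟩
    refine ⟨⟨hu1.1, ?_⟩, hu2⟩
    by_contra hcon
    exact h2 u (not_lt.1 hcon) hu2
  have h4 : dur pre + (c.2.1 : ℝ) / 2 ≤ Schedule.completion J σ i1 := by
    refine Schedule.le_completion hσ (by positivity) ?_
    have h5 := h1 (dur pre + (c.2.1 : ℝ) / 2) (by linarith) (by linarith)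
    exact ((hd.2 _ (by positivity)).1 i1).2 ⟨c, h5, hc⟩
  linarith

theorem isA_iff (hd : Describes L σ) (hσ : σ.Feasible J) {i1 i2 : Fin J.length}
    (hw1 : 0 < wrk J i1) (hw2 : 0 < wrk J i2) (hne : i1 ≠ i2) :
    isA L i1 i2 = true ↔ Schedule.completion J σ i1 ≤ Schedule.completion J σ i2 := by
  have hne' : (i1 : ℕ) ≠ i2 := fun h => hne (Fin.ext h)
  unfold isA
  rw [List.head?_filter]
  cases hf : L.reverse.find? (relv i1 i2) with
  | none =>
    exfalso
    rw [List.find?_eq_none] at hf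
    obtain ⟨t, ht⟩ := hσ.2 i1
    have h1 : Ico 0 t ∩ σ.at_ i1 = ∅ := by
      ext u
      simp only [mem_inter_iff, mem_empty_iff_false, iff_false, not_and]
      intro hu hat
      obtain ⟨c, hc, hci⟩ := ((hd.2 u hu.1).1 i1).1 hat
      obtain ⟨h2, h3⟩ := segAt_mem hu.1 hc
      refine hf c (List.mem_reverse.2 h2) ?_
      simp [relv, hci, h3.ne']
    rw [Schedule.done_eq, h1] at ht
    simp only [MeasureTheory.Measure.restrict_empty, MeasureTheory.lintegral_zero_measure] at ht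
    have := ENNReal.ofReal_pos.2 hw1
    exact absurd (lt_of_lt_of_le this ht) (lt_irrefl _)
  | some c =>
    rw [List.find?_eq_some_iff_append] at hf
    obtain ⟨hp, as, bs, hL, has⟩ := hf
    have hL' : L = bs.reverse ++ c :: as.reverse := by
      have := congrArg List.reverse hL
      simpa using this
    simp only [relv, Bool.and_eq_true, Bool.or_eq_true, decide_eq_true_eq, Bool.not_eq_true',
      decide_eq_false_iff_not] at hp
    obtain ⟨hp1, hp2⟩ := hp
    have hpost : ∀ c' ∈ as.reverse, 0 < c'.2.1 → c'.1 ≠ i1 ∧ c'.1 ≠ i2 := by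
      intro c' hc' hpos
      have h1 := has c' (List.mem_reverse.1 hc')
      simp only [relv, Bool.not_eq_true', Bool.and_eq_false_iff, Bool.or_eq_false_iff,
        decide_eq_false_iff_not] at h1
      rcases h1 with h1 | h1
      · exact h1
      · simp at h1
        exact absurd h1 hpos.ne'
    simp only [Option.any_some, decide_eq_true_eq]
    rcases hp1 with h1 | h1
    · have h2 := completion_lt_of_last hd hσ hw2 hne hL' h1 hp2
        fun c' hc' hpos => (hpost c' hc' hpos).2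
      constructor
      · intro h3
        exact absurd (h1.symm.trans h3) hne'
      · intro h3
        exact absurd h2 (not_lt.2 h3)
    · have h2 := completion_lt_of_last hd hσ hw1 hne.symm hL' h1 hp2
        fun c' hc' hpos => (hpost c' hc' hpos).1
      exact ⟨fun _ => h2.le, fun _ => h1⟩

/-- the sum of the items whose gadget has the big job finished first -/
def psum (l : List ℕ) (L : List (ℕ × ℚ × ℚ)) : ℕ :=
  ((List.range l.length).map fun j =>
    bif isA L (2 * j) (2 * j + 1) then l.getD j 0 else 0).sum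

theorem psum_eq (l : List ℕ) (L : List (ℕ × ℚ × ℚ)) : psum l L =
    ∑ j ∈ Finset.univ.filter (fun j : Fin l.length =>
      isA L (2 * (j : ℕ)) (2 * (j : ℕ) + 1) = true), l[j] := by
  unfold psum
  have h1 : ∀ (n : ℕ) (f : ℕ → ℕ), ((List.range n).map f).sum = ∑ i : Fin n, f i := by
    intro n f
    rw [← Finset.sum_range]
    rfl
  rw [h1, Finset.sum_filter]
  refine Finset.sum_congr rfl fun j _ => ?_
  rw [List.getD_eq_getElem _ _ j.2]
  cases isA L (2 * (j : ℕ)) (2 * (j : ℕ) + 1) <;> simp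

/-- the sum computed from the segments is a sum of items -/
theorem exists_sublist_psum (l : List ℕ) (L : List (ℕ × ℚ × ℚ)) :
    ∃ s : List ℕ, s.Sublist l ∧ s.sum = psum l L := by
  obtain ⟨s, h1, h2⟩ := exists_sublist_of_finset l (Finset.univ.filter (fun j : Fin l.length =>
      isA L (2 * (j : ℕ)) (2 * (j : ℕ) + 1) = true))
  refine ⟨s, h1, ?_⟩
  rw [psum_eq]
  have h3 : (s.sum : ℝ) = ((∑ j ∈ Finset.univ.filter (fun j : Fin l.length =>
      isA L (2 * (j : ℕ)) (2 * (j : ℕ) + 1) = true), l[j] : ℕ) : ℝ) := by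
    rw [h2]
    push_cast
    rfl
  exact_mod_cast h3

/-- the sum computed from the segments is the sum over the pattern of the schedule -/
theorem psum_eq_pat {B1 B2 k M : ℕ} {I : List ℕ × ℕ} {L : List (ℕ × ℚ × ℚ)}
    (hB1 : 0 < B1) (hM : 0 < M) (hk : M ≤ k) (hpos : ∀ a ∈ I.1, 0 < a)
    {σ : Schedule (jobs B1 B2 k M I).length} (hσ : σ.Feasible _) (hd : Describes L σ) :
    ((psum I.1 L : ℕ) : ℝ) = ∑ j ∈ (gadOf B1 B2 k M I hB1 hM hk hpos).pat σ, (I.1[j] : ℝ) := by
  set G := gadOf B1 B2 k M I hB1 hM hk hpos with hG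
  rw [psum_eq]
  have h1 : (Finset.univ.filter (fun j : Fin I.1.length =>
      isA L (2 * (j : ℕ)) (2 * (j : ℕ) + 1) = true)) = G.pat σ := by
    ext j
    simp only [Finset.mem_filter, Finset.mem_univ, true_and, Gad.pat]
    have hv0 : ((G.e (j, 0) : Fin _) : ℕ) = 2 * j := by
      change ((numb B1 B2 k M I (j, 0) : Fin _) : ℕ) = _
      rw [numb_val]
      simp
    have hv1 : ((G.e (j, 1) : Fin _) : ℕ) = 2 * j + 1 := by
      change ((numb B1 B2 k M I (j, 1) : Fin _) : ℕ) = _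
      rw [numb_val]
      simp
      omega
    rw [← isA_iff hd hσ (G.wb_pos j) (G.ws_pos j) (fun h => by
      have := G.e.injective h
      simp at this), hv0, hv1]
  rw [h1]
  push_cast
  rfl

section Poly

variable {α : Type} [TEnc α]

theorem poly_isA {L : α → List (ℕ × ℚ × ℚ)} {i1 i2 : α → ℕ} (hL : NPC.Poly L)
    (h1 : NPC.Poly i1) (h2 : NPC.Poly i2) : NPC.Poly (fun a => isA (L a) (i1 a) (i2 a)) := by
  unfold isA
  have hrel : NPC.Poly (fun p : α × (ℕ × ℚ × ℚ) => relv (i1 p.1) (i2 p.1) p.2) := by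
    unfold relv
    have h1' : NPC.Poly (fun p : α × (ℕ × ℚ × ℚ) => i1 p.1) := h1.comp (Poly.fst Poly.id)
    have h2' : NPC.Poly (fun p : α × (ℕ × ℚ × ℚ) => i2 p.1) := h2.comp (Poly.fst Poly.id)
    have hc : NPC.Poly (fun p : α × (ℕ × ℚ × ℚ) => p.2.1) := Poly.fst (Poly.snd Poly.id)
    have hq : NPC.Poly (fun p : α × (ℕ × ℚ × ℚ) => p.2.2.1) :=
      Poly.fst (Poly.snd (Poly.snd Poly.id))
    exact Poly.and (Poly.or (Poly.decide_eq hc h1') (Poly.decide_eq hc h2'))
      (Poly.not (Poly.decide_eq hq (NPC.Poly.const 0)))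
  have hf : NPC.Poly (fun a => ((L a).reverse.filter (relv (i1 a) (i2 a))).head?) :=
    Poly.head? (Poly.filter (p := fun a c => relv (i1 a) (i2 a) c) (Poly.reverse hL) hrel)
  exact Poly.optAny_fp (h := fun a (c : ℕ × ℚ × ℚ) => decide (c.1 = i2 a)) hf
    (Poly.decide_eq (Poly.fst (Poly.snd Poly.id)) (h2.comp (Poly.fst Poly.id)))

theorem poly_psum {l : α → List ℕ} {L : α → List (ℕ × ℚ × ℚ)} (hl : NPC.Poly l)
    (hL : NPC.Poly L) : NPC.Poly (fun a => psum (l a) (L a)) := by
  unfold psum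
  refine Poly.sum (NPC.Poly.map (F := fun a j =>
    bif isA (L a) (2 * j) (2 * j + 1) then (l a).getD j 0 else 0) (UPoly.length hl).range ?_)
  have hL' : NPC.Poly (fun p : α × ℕ => L p.1) := hL.comp (Poly.fst Poly.id)
  have hl' : NPC.Poly (fun p : α × ℕ => l p.1) := hl.comp (Poly.fst Poly.id)
  have hj : NPC.Poly (fun p : α × ℕ => p.2) := Poly.snd Poly.id
  exact Poly.cond (poly_isA hL' (Poly.mul (NPC.Poly.const 2) hj)
    (Poly.add (Poly.mul (NPC.Poly.const 2) hj) (NPC.Poly.const 1)))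
    (Poly.getD (d := fun _ => 0) hl' hj (NPC.Poly.const 0)) (NPC.Poly.const 0)

end Poly

end Pool.Agent.T6.H89.Speed
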