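import Mathlib

set_option autoImplicit false

/-!
# The gap
-/

namespace Pool.Agent.T6.H89.Speed

/-- upper bound of second order for `(1 + h) ^ α` -/
theorem rpow_le_quad {α : ℝ} (hα : 1 ≤ α) : ∃ K : ℝ, 0 < K ∧ ∀ h : ℝ, |h| ≤ 1 →
    (1 + h) ^ α ≤ 1 + α * h + K * h ^ 2 := by
  obtain ⟨N, hN⟩ := exists_nat_ge α
  have hN0 : (0 : ℝ) < N := by linarith
  refine ⟨α / N * 3 ^ N, by positivity, fun h hh => ?_⟩
  have hh1 : 0 ≤ 1 + h := by
    have := (abs_le.1 hh).1
    linarith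
  -- the integral exponent
  have h1 : ∀ n : ℕ, (1 + h) ^ n ≤ 1 + n * h + 3 ^ n * h ^ 2 := by
    intro n
    induction n with
    | zero =>
      simp
      positivity
    | succ n ih =>
      have h2 : (1 + h) ^ (n + 1) ≤ (1 + n * h + 3 ^ n * h ^ 2) * (1 + h) := by
        rw [pow_succ]
        exact mul_le_mul_of_nonneg_right ih hh1
      refine h2.trans ?_
      have h3 : h * h ^ 2 ≤ h ^ 2 := by
        have := (abs_le.1 hh).2
        nlinarith [sq_nonneg h]
      have h4 : (n : ℝ) ≤ 3 ^ n := by exact_mod_cast (Nat.lt_pow_self (by norm_num)).le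
      have h5 : (0 : ℝ) ≤ 3 ^ n := by positivity
      have h6 : (3 : ℝ) ^ n * (h * h ^ 2) ≤ 3 ^ n * h ^ 2 := mul_le_mul_of_nonneg_left h3 h5
      have h7 : (n : ℝ) * h ^ 2 ≤ 3 ^ n * h ^ 2 := mul_le_mul_of_nonneg_right h4 (sq_nonneg h)
      have hind : (1 + n * h + 3 ^ n * h ^ 2) * (1 + h) =
          1 + (n + 1) * h + 3 ^ n * h ^ 2 + n * h ^ 2 + 3 ^ n * (h * h ^ 2) := by ring
      have h8 : (3 : ℝ) ^ (n + 1) * h ^ 2 = 3 ^ n * h ^ 2 + 3 ^ n * h ^ 2 + 3 ^ n * h ^ 2 := by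
        ring
      rw [hind]
      push_cast
      linarith
  have h2 : (1 + h) ^ α = ((1 + h) ^ N) ^ (α / N) := by
    rw [← Real.rpow_natCast, ← Real.rpow_mul hh1]
    congr 1
    field_simp
  have h3 : α / N ≤ 1 := by
    rw [div_le_one hN0]
    exact hN
  have h4 : ((1 + h) ^ N) ^ (α / N) ≤ 1 + (α / N) * ((1 + h) ^ N - 1) := by
    have h5 := rpow_one_add_le_one_add_mul_self (s := (1 + h) ^ N - 1)
      (by linarith [pow_nonneg hh1 N]) (p := α / N) (by positivity) h3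
    rwa [add_sub_cancel] at h5
  rw [h2]
  refine h4.trans ?_
  have h6 : (α / N) * ((1 + h) ^ N - 1) ≤ (α / N) * (N * h + 3 ^ N * h ^ 2) :=
    mul_le_mul_of_nonneg_left (by linarith [h1 N]) (by positivity)
  have h7 : (α / N) * (N * h + 3 ^ N * h ^ 2) = α * h + α / N * 3 ^ N * h ^ 2 := by
    field_simp
  linarith

/-- **The gap**: the family of lower bounds for a pattern with the sum `t ≠ T`. -/
theorem gap {α β : ℝ} (hc : α.HolderConjugate β) {B1 B2 : ℝ} (hB1 : 0 < B1) (hB2 : 0 < B2)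
    (hβ : β * B2 = B1) : ∃ C : ℝ, 0 < C ∧ ∀ (S t T M k F : ℝ), 1 ≤ S → 0 ≤ t → t ≤ S → 0 ≤ T →
      T ≤ S → 1 ≤ |t - T| → C * S ^ 2 ≤ M → k - 1 ≤ 2 ^ (1 / β) * M → 2 ^ (1 / β) * M ≤ k →
      k ≤ 2 * M →
      (∀ z : ℝ, 0 ≤ z → β * z * M * (t * (2 ^ (1 / β) * (2 * B1 + B2) + 2 * B1) +
        (S - t) * (2 ^ (1 / β) * (2 * B1) + (2 * B1 + B2))) ≤
        F + t * (B1 * (k - M)) + z ^ α / (α - 1) *
          (T * (k * (2 * B1 + B2) + M * (2 * B1)) +
            (S - T) * (k * (2 * B1) + M * (2 * B1 + B2)))) →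
      (T * (k * (2 * B1 + B2) + M * (2 * B1)) +
        (S - T) * (k * (2 * B1) + M * (2 * B1 + B2))) - T * (B1 * (k - M)) + 2 ≤ F := by
  have hβ0 : 0 < β := hc.symm.pos
  have hβ1 : 1 < β := hc.symm.lt
  have hα : 1 < α := hc.lt
  obtain ⟨K, hK, hKq⟩ := rpow_le_quad hα.le
  set lam : ℝ := 2 ^ (1 / β) with hlam
  have hl1 : 1 < lam := Real.one_lt_rpow one_lt_two (by positivity)
  obtain ⟨W, hW⟩ : ∃ W : ℝ, W = 2 * B1 + B2 := ⟨_, rfl⟩
  obtain ⟨w, hw⟩ : ∃ w : ℝ, w = 2 * B1 := ⟨_, rfl⟩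
  have hW0 : 0 < W := by rw [hW]; linarith
  have hw0 : 0 < w := by rw [hw]; linarith
  have hwW : w ≤ W := by rw [hW, hw]; linarith
  have ha1 : 0 < α - 1 := by linarith
  -- the constants
  set c : ℝ := 2 + 8 * K * W / ((α - 1) * (lam - 1) * B1) with hcdef
  have hd : 0 < (α - 1) * (lam - 1) * B1 := mul_pos (mul_pos ha1 (by linarith)) hB1
  have hc2 : 2 ≤ c := by
    rw [hcdef]
    have : 0 < 8 * K * W / ((α - 1) * (lam - 1) * B1) := by positivity
    linarith
  have hc0 : 0 < c := by linarith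
  have hcK : 8 * K * W / (α - 1) ≤ c * ((lam - 1) * B1) := by
    have h1 : 8 * K * W / (α - 1) =
        (8 * K * W / ((α - 1) * (lam - 1) * B1)) * ((lam - 1) * B1) := by
      have : lam - 1 ≠ 0 := by linarith
      field_simp
    rw [h1, hcdef]
    refine mul_le_mul_of_nonneg_right ?_ (mul_nonneg (by linarith) hB1.le)
    linarith
  have hlB : 0 < (lam - 1) * B1 := mul_pos (by linarith) hB1
  refine ⟨4 * c / ((lam - 1) * B1) * (1 + β * W), by positivity, ?_⟩
  intro S t T M k F hS ht htS hT hTS htT hM hk1 hk2 hk3 hF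
  rw [← hW, ← hw] at hF ⊢
  have hS0 : 0 < S := by linarith
  have hM0 : 0 < M := by
    refine lt_of_lt_of_le ?_ hM
    positivity
  obtain ⟨E, hE⟩ : ∃ E : ℝ, E = T * (k * W + M * w) + (S - T) * (k * w + M * W) := ⟨_, rfl⟩
  rw [← hE] at hF ⊢
  have hk0 : 0 < k := by nlinarith
  have hG : (lam - 1) * M ≤ k - M := by linarith
  have hG0 : 0 ≤ k - M := by nlinarith
  -- `E ≤ 4 S M W`
  have hE0 : 0 ≤ E := by
    rw [hE]
    have : 0 ≤ S - T := by linarith
    positivity
  have hE4 : E ≤ 4 * S * M * W := by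
    have h1 : k * W + M * w ≤ 4 * M * W := by nlinarith
    have h2 : k * w + M * W ≤ 4 * M * W := by nlinarith
    have h3 : T * (k * W + M * w) ≤ T * (4 * M * W) := mul_le_mul_of_nonneg_left h1 hT
    have h4 : (S - T) * (k * w + M * W) ≤ (S - T) * (4 * M * W) :=
      mul_le_mul_of_nonneg_left h2 (by linarith)
    rw [hE]
    linarith
  -- the multiplier
  set η : ℝ := 1 / (c * S) with hη
  have hη0 : 0 < η := by positivity
  have hη1 : η ≤ 1 := by
    rw [hη, div_le_one (by positivity)]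
    nlinarith
  obtain ⟨h, hh, hh2⟩ : ∃ h : ℝ, |h| = η ∧ η ≤ h * (t - T) := by
    rcases le_total 0 (t - T) with h1 | h1
    · refine ⟨η, abs_of_pos hη0, ?_⟩
      rw [abs_of_nonneg h1] at htT
      nlinarith
    · refine ⟨-η, by rw [abs_neg, abs_of_pos hη0], ?_⟩
      rw [abs_of_nonpos h1] at htT
      nlinarith
  have hhabs : |h| ≤ 1 := hh ▸ hη1
  have hz0 : 0 ≤ 1 + h := by
    have := (abs_le.1 hhabs).1
    linarith
  have hz2 : 1 + h ≤ 2 := by
    have := (abs_le.1 hhabs).2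
    linarith
  have h1 := hF (1 + h) hz0
  have h2 := hKq h hhabs
  have hsq : h ^ 2 = η ^ 2 := by rw [← hh, sq_abs]
  -- lower bound of the left side
  have h3 : β * E + (t - T) * ((k - M) * B1) - β * (S * W) ≤
      β * M * (t * (lam * W + w) + (S - t) * (lam * w + W)) := by
    have h4 : E + (t - T) * ((k - M) * B2) - S * W ≤
        M * (t * (lam * W + w) + (S - t) * (lam * w + W)) := by
      have h5 : t * ((k - 1) * W) ≤ t * (lam * M * W) :=
        mul_le_mul_of_nonneg_left (mul_le_mul_of_nonneg_right hk1 hW0.le) ht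
      have h6 : (S - t) * ((k - 1) * w) ≤ (S - t) * (lam * M * w) :=
        mul_le_mul_of_nonneg_left (mul_le_mul_of_nonneg_right hk1 hw0.le) (by linarith)
      have h7 : (S - t) * w ≤ (S - t) * W := mul_le_mul_of_nonneg_left hwW (by linarith)
      have h8 : B2 = W - w := by rw [hW, hw]; ring
      rw [hE, h8]
      nlinarith
    have h5 := mul_le_mul_of_nonneg_left h4 hβ0.le
    have h6 : β * (E + (t - T) * ((k - M) * B2) - S * W) =
        β * E + (t - T) * ((k - M) * B1) - β * (S * W) := by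
      rw [← hβ]
      ring
    rw [h6] at h5
    linarith
  have h4 : (1 + h) * (β * E + (t - T) * ((k - M) * B1) - β * (S * W)) ≤
      F + t * (B1 * (k - M)) + (1 + h) ^ α / (α - 1) * E := by
    refine le_trans (mul_le_mul_of_nonneg_left h3 hz0) ?_
    linarith
  have h5 : (1 + h) ^ α / (α - 1) * E ≤ (1 + α * h + K * h ^ 2) / (α - 1) * E :=
    mul_le_mul_of_nonneg_right (div_le_div_of_nonneg_right h2 ha1.le) hE0
  have hab : β = α / (α - 1) := by
    rw [eq_div_iff ha1.ne', mul_comm]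
    exact hc.sub_one_mul_conj
  have h6 : (1 + α * h + K * h ^ 2) / (α - 1) = (1 + h) * β - 1 + K / (α - 1) * h ^ 2 := by
    rw [hab]
    field_simp
    ring
  rw [h6] at h5
  -- collect
  have h7 : h * (t - T) * ((k - M) * B1) - (1 + h) * (β * (S * W)) -
      K / (α - 1) * h ^ 2 * E ≤ F - (E - T * (B1 * (k - M))) := by
    nlinarith
  have h8 : η * ((lam - 1) * M * B1) ≤ h * (t - T) * ((k - M) * B1) := by
    have h9 : (lam - 1) * M * B1 ≤ (k - M) * B1 := mul_le_mul_of_nonneg_right hG hB1.le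
    have h10 : 0 ≤ (lam - 1) * M * B1 := by
      have : 0 ≤ lam - 1 := by linarith
      positivity
    exact mul_le_mul hh2 h9 h10 (hη0.le.trans hh2)
  have h9 : (1 + h) * (β * (S * W)) ≤ 2 * (β * (S * W)) :=
    mul_le_mul_of_nonneg_right hz2 (by positivity)
  have h10 : K / (α - 1) * h ^ 2 * E ≤ K / (α - 1) * η ^ 2 * (4 * S * M * W) := by
    rw [hsq]
    exact mul_le_mul_of_nonneg_left hE4 (by positivity)
  -- `K / (α - 1) * η ^ 2 * (4 * S * M * W) ≤ η * ((lam - 1) * M * B1) / 2`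
  have h11 : K / (α - 1) * η ^ 2 * (4 * S * M * W) ≤ η * ((lam - 1) * M * B1) / 2 := by
    have h12 : K / (α - 1) * η ^ 2 * (4 * S * M * W) =
        (8 * K * W / (α - 1)) * (η * (η * S) * M / 2) := by
      field_simp
      ring
    have h13 : η * S = 1 / c := by
      rw [hη]
      field_simp
    rw [h12, h13]
    calc (8 * K * W / (α - 1)) * (η * (1 / c) * M / 2)
        ≤ (c * ((lam - 1) * B1)) * (η * (1 / c) * M / 2) :=
          mul_le_mul_of_nonneg_right hcK (by positivity)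
      _ = η * ((lam - 1) * M * B1) / 2 := by field_simp
  have h12 : 2 * (β * (S * W)) + 2 ≤ η * ((lam - 1) * M * B1) / 2 := by
    have h13 : η * ((lam - 1) * M * B1) / 2 = ((lam - 1) * B1) / (2 * c * S) * M := by
      rw [hη]
      field_simp
    rw [h13]
    calc 2 * (β * (S * W)) + 2 ≤ 2 * S * (1 + β * W) := by nlinarith
      _ = ((lam - 1) * B1) / (2 * c * S) *
          (4 * c / ((lam - 1) * B1) * (1 + β * W) * S ^ 2) := by
        have : lam - 1 ≠ 0 := by linarith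
        field_simp
        ring
      _ ≤ ((lam - 1) * B1) / (2 * c * S) * M :=
        mul_le_mul_of_nonneg_left hM (by positivity)
  linarith

end Pool.Agent.T6.H89.Speed
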