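import Pool.Agent.T6.H89.Speed.Red
import Pool.Agent.T6.H89.Speed.Gap
import Pool.Agent.H671R2.SubsetSum

set_option autoImplicit false

/-!
# Correctness of the reduction
-/

namespace Pool.Agent.T6.H89.Speed

open Pool.Agent.NPC Pool.Agent.NPC.R671.SS
open scoped ENNReal

theorem exists_finset_of_sublist {s l : List ℕ} (h : s.Sublist l) :
    ∃ P : Finset (Fin l.length), ∑ j ∈ P, (l[j] : ℝ) = s.sum := by
  obtain ⟨f, hf⟩ := List.sublist_iff_exists_fin_orderEmbedding_get_eq.1 h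
  refine ⟨Finset.univ.map f.toEmbedding, ?_⟩
  rw [Finset.sum_map]
  have h1 : (s.sum : ℝ) = ∑ i : Fin s.length, ((s.get i : ℕ) : ℝ) := by
    rw [← Nat.cast_sum]
    congr 1
    rw [← List.sum_ofFn, List.ofFn_get]
  rw [h1]
  refine Finset.sum_congr rfl fun i _ => ?_
  rw [hf i]
  rfl

theorem exists_sublist_of_finset (l : List ℕ) (P : Finset (Fin l.length)) :
    ∃ s : List ℕ, s.Sublist l ∧ (s.sum : ℝ) = ∑ j ∈ P, (l[j] : ℝ) := by
  classical
  refine ⟨((List.finRange l.length).filter (fun j => j ∈ P)).map l.get, ?_, ?_⟩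
  · have h1 : ((List.finRange l.length).map l.get) = l := by
      rw [← List.ofFn_eq_map, List.ofFn_get]
    conv_rhs => rw [← h1]
    exact List.Sublist.map _ List.filter_sublist
  · have h2 : (((List.finRange l.length).filter (fun j => j ∈ P)).map l.get).sum =
        ∑ j ∈ P, l.get j := by
      rw [← List.sum_toFinset _ ((List.nodup_finRange _).filter _)]
      refine Finset.sum_congr ?_ fun _ _ => rfl
      ext j
      simp
    rw [h2]
    push_cast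
    rfl

theorem sum_get (l : List ℕ) : ∑ j : Fin l.length, (l[j] : ℝ) = l.sum := by
  rw [← Nat.cast_sum]
  congr 1
  rw [← List.sum_ofFn]
  congr 1
  exact List.ofFn_get l

variable {α β : ℝ} (hc : α.HolderConjugate β) {B1 B2 : ℕ} (hB2 : 0 < B2) (hB : B2 < B1)
  (hβ : β * B2 = B1)

include hc hB2 hB hβ

/-- **Correctness of the reduction.** -/
theorem facts : ∃ C1 : ℕ, ∀ I : List ℕ × ℕ, Nice I →
    ∃ (hk : (kM B1 B2 C1 I).2 ≤ (kM B1 B2 C1 I).1) (hM : 0 < (kM B1 B2 C1 I).2)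
      (hpos : ∀ a ∈ I.1, 0 < a),
    0 < budget B1 B2 (kM B1 B2 C1 I).1 (kM B1 B2 C1 I).2 I ∧
    (∃ σ : Schedule (jobs B1 B2 (kM B1 B2 C1 I).1 (kM B1 B2 C1 I).2 I).length,
      σ.Feasible _ ∧ σ.energy α ≤
        ENNReal.ofReal (budget B1 B2 (kM B1 B2 C1 I).1 (kM B1 B2 C1 I).2 I : ℝ)) ∧
    (SubsetSum I → ∃ σ : Schedule (jobs B1 B2 (kM B1 B2 C1 I).1 (kM B1 B2 C1 I).2 I).length,
      σ.Feasible _ ∧ σ.energy α ≤
        ENNReal.ofReal (budget B1 B2 (kM B1 B2 C1 I).1 (kM B1 B2 C1 I).2 I : ℝ) ∧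
      σ.flow _ ≤ (bound B1 B2 (kM B1 B2 C1 I).1 (kM B1 B2 C1 I).2 I : ℝ)) ∧
    (∀ σ : Schedule (jobs B1 B2 (kM B1 B2 C1 I).1 (kM B1 B2 C1 I).2 I).length,
      σ.Feasible _ → σ.energy α ≤
        ENNReal.ofReal (budget B1 B2 (kM B1 B2 C1 I).1 (kM B1 B2 C1 I).2 I : ℝ) →
      σ.flow _ < (bound B1 B2 (kM B1 B2 C1 I).1 (kM B1 B2 C1 I).2 I : ℝ) + 2 →
      ∑ j ∈ (gadOf B1 B2 (kM B1 B2 C1 I).1 (kM B1 B2 C1 I).2 I (by omega) hM hk hpos).pat σ,
        (I.1[j] : ℝ) = I.2) := by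
  have hB1 : 0 < B1 := by omega
  have hB1' : (0 : ℝ) < B1 := by exact_mod_cast hB1
  have hB2' : (0 : ℝ) < B2 := by exact_mod_cast hB2
  obtain ⟨C, hC0, hC⟩ := gap hc hB1' hB2' hβ
  obtain ⟨C1, hC1⟩ := pow_unbounded_of_one_lt C (one_lt_two (α := ℝ))
  refine ⟨C1, fun I hI => ?_⟩
  have hβ0 : 0 < β := hc.symm.pos
  have hinv : (B2 : ℝ) / B1 = 1 / β := by
    rw [← hβ]
    field_simp
  set r := (rstep B1 B2)^[prec C1 I] (1, 1) with hr
  have hr2 : r.2 = 2 ^ prec C1 I := (rstep_inv hB _).1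
  have hr1 := rstep_fst_lt hB (prec C1 I)
  obtain ⟨hr3, hr4⟩ := rstep_real hB (prec C1 I)
  rw [hinv] at hr3 hr4
  rw [← hr] at hr1 hr3 hr4
  set lam : ℝ := 2 ^ (1 / β) with hlam
  have hl1 : 1 ≤ lam := Real.one_le_rpow one_le_two (by positivity)
  obtain ⟨k, hk⟩ : ∃ k, k = (kM B1 B2 C1 I).1 := ⟨_, rfl⟩
  obtain ⟨M, hM⟩ : ∃ M, M = (kM B1 B2 C1 I).2 := ⟨_, rfl⟩
  rw [← hk, ← hM]
  have hkr : k = r.1 + 1 := by rw [hk]; rfl
  have hMr : M = 2 ^ prec C1 I := by rw [hM, ← hr2]; rfl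
  have hM0 : 0 < M := by rw [hMr]; positivity
  have hMR : (M : ℝ) = 2 ^ prec C1 I := by rw [hMr]; push_cast; rfl
  have hkR : (k : ℝ) = (r.1 : ℝ) + 1 := by rw [hkr]; push_cast; rfl
  have hM0' : (0 : ℝ) < M := by exact_mod_cast hM0
  have h1 : (k : ℝ) - 1 ≤ lam * M := by rw [hkR, hMR]; linarith
  have h2 : lam * M ≤ k := by rw [hkR, hMR]; exact hr4.le
  have h3 : k ≤ 2 * M := by rw [hkr, hMr]; omega
  have h3' : (k : ℝ) ≤ 2 * M := by exact_mod_cast h3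
  have h4' : (M : ℝ) ≤ k := by nlinarith
  have h4 : M ≤ k := by exact_mod_cast h4'
  have hpos : ∀ a ∈ I.1, 0 < a := fun a ha => (hI.1 a ha).1
  have hTS : I.2 ≤ I.1.sum := hI.2.le
  have hS1 : 1 ≤ I.1.sum := by have := hI.2; omega
  have hTS' : (I.2 : ℝ) ≤ (I.1.sum : ℝ) := by exact_mod_cast hTS
  have hS1' : (1 : ℝ) ≤ (I.1.sum : ℝ) := by exact_mod_cast hS1
  have hT0' : (0 : ℝ) ≤ (I.2 : ℝ) := by positivity
  -- `C S² ≤ M`
  have hCM : C * (I.1.sum : ℝ) ^ 2 ≤ M := by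
    have h5 : (I.1.sum : ℝ) ≤ 2 ^ I.1.sum.bits.length := by
      have := Nat.lt_size_self I.1.sum
      rw [Nat.size_eq_bits_len]
      exact_mod_cast this.le
    calc C * (I.1.sum : ℝ) ^ 2 ≤ 2 ^ C1 * (2 ^ I.1.sum.bits.length) ^ 2 :=
          mul_le_mul hC1.le (pow_le_pow_left₀ (by positivity) h5 2) (by positivity)
            (by positivity)
      _ = M := by
          rw [hMR]
          unfold prec
          rw [pow_add, mul_comm 2 _, pow_mul]
  -- the casts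
  have hEcast : (budget B1 B2 k M I : ℝ) = I.2 * (k * (2 * B1 + B2) + M * (2 * B1)) +
      (I.1.sum - I.2) * (k * (2 * B1) + M * (2 * B1 + B2)) := by
    unfold budget
    push_cast [Nat.cast_sub hTS]
    ring
  have hvle : I.2 * (B1 * (k - M)) ≤ budget B1 B2 k M I := by
    unfold budget
    have h5 : B1 * (k - M) ≤ k * (2 * B1 + B2) + M * (2 * B1) := by
      calc B1 * (k - M) ≤ B1 * k := Nat.mul_le_mul_left _ (Nat.sub_le _ _)
        _ ≤ k * (2 * B1 + B2) + M * (2 * B1) := by nlinarith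
    exact (Nat.mul_le_mul_left _ h5).trans (Nat.le_add_right _ _)
  have hvcast : (bound B1 B2 k M I : ℝ) = budget B1 B2 k M I - I.2 * (B1 * ((k : ℝ) - M)) := by
    unfold bound
    rw [Nat.cast_sub hvle]
    push_cast [Nat.cast_sub h4]
    ring
  -- the schedules of the gadgets
  have hup : ∀ P : Finset (Fin I.1.length), ∃ σ : Schedule (jobs B1 B2 k M I).length,
      σ.Feasible _ ∧
      σ.energy α = ENNReal.ofReal (M * ((∑ j ∈ P, (I.1[j] : ℝ)) * (lam * (2 * B1 + B2) + 2 * B1) +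
        ((I.1.sum : ℝ) - ∑ j ∈ P, (I.1[j] : ℝ)) * (lam * (2 * B1) + (2 * B1 + B2)))) ∧
      σ.flow _ ≤ (∑ j ∈ P, (I.1[j] : ℝ)) *
          (lam * (M * (2 * B1 + B2)) + M * (2 * B1) - B1 * ((k : ℝ) - M)) +
        ((I.1.sum : ℝ) - ∑ j ∈ P, (I.1[j] : ℝ)) *
          (lam * (M * (2 * B1)) + M * (2 * B1 + B2)) := by
    intro P
    have G := gadOf B1 B2 k M I hB1 hM0 h4 hpos
    have hκ2 : (2 : ℝ) ^ (1 / α) ≤ 2 := by
      have h5 : 1 / α ≤ 1 := by
        rw [div_le_one (by linarith [hc.lt])]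
        exact hc.lt.le
      calc (2 : ℝ) ^ (1 / α) ≤ 2 ^ (1 : ℝ) := Real.rpow_le_rpow_of_exponent_le one_le_two h5
        _ = 2 := Real.rpow_one 2
    have hkM0 : 0 ≤ (k : ℝ) - M := by linarith
    obtain ⟨σ, h5, h6, h7⟩ := G.upper hc P (by
        have h5 : (B1 : ℝ) * (k - M) ≤ B1 * M := mul_le_mul_of_nonneg_left (by linarith) hB1'.le
        calc (B1 : ℝ) * (k - M) * 2 ^ (1 / α) ≤ B1 * M * 2 :=
              mul_le_mul h5 hκ2 (by positivity) (by positivity)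
          _ ≤ M * (2 * B1 + B2) := by nlinarith) (by
        intro j
        have h5 : (I.1[j] : ℝ) ≤ (I.1.sum : ℝ) := by
          exact_mod_cast List.single_le_sum (fun _ _ => Nat.zero_le _) _ (List.getElem_mem _)
        calc (I.1[j] : ℝ) * (M * ((2 * B1 + B2) + 2 * B1)) ≤
              (I.1.sum : ℝ) * (M * ((2 * B1 + B2) + 2 * B1)) :=
              mul_le_mul_of_nonneg_right h5 (by positivity)
          _ = M * (4 * B1 + B2) * I.1.sum := by ring)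
    have hcompl : ∑ j ∈ Pᶜ, (I.1[j] : ℝ) = (I.1.sum : ℝ) - ∑ j ∈ P, (I.1[j] : ℝ) := by
      have h8 := Finset.sum_add_sum_compl P (fun j : Fin I.1.length => (I.1[j] : ℝ))
      rw [sum_get] at h8
      linarith
    rw [hcompl] at h6 h7
    exact ⟨σ, h5, h6, h7⟩
  have hkM1 : (lam - 1) * M ≤ (k : ℝ) - M := by linarith
  refine ⟨h4, hM0, hpos, ?_, ?_, ?_, ?_⟩
  · have h5 : (0 : ℝ) < budget B1 B2 k M I := by
      rw [hEcast]
      have h6 : (0 : ℝ) < k := by linarith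
      have h7 : (0 : ℝ) < (k * (2 * B1) + M * (2 * B1 + B2)) := by positivity
      have h8 : (0 : ℝ) < (I.1.sum : ℝ) - I.2 := by
        have := hI.2
        have : (I.2 : ℝ) < (I.1.sum : ℝ) := by exact_mod_cast this
        linarith
      positivity
    exact_mod_cast h5
  · obtain ⟨σ, h5, h6, -⟩ := hup ∅
    refine ⟨σ, h5, ?_⟩
    rw [h6]
    refine ENNReal.ofReal_le_ofReal ?_
    rw [hEcast, Finset.sum_empty]
    have h8 : lam * M * (2 * B1) + M * (2 * B1 + B2) ≤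
        (k : ℝ) * (2 * B1 + B2) + M * (2 * B1) := by nlinarith
    have h9 : lam * M * (2 * B1) + M * (2 * B1 + B2) ≤
        (k : ℝ) * (2 * B1) + M * (2 * B1 + B2) := by nlinarith
    have h10 := mul_le_mul_of_nonneg_left h8 hT0'
    have h11 : ((I.1.sum : ℝ) - I.2) * (lam * M * (2 * B1) + M * (2 * B1 + B2)) ≤
        ((I.1.sum : ℝ) - I.2) * ((k : ℝ) * (2 * B1) + M * (2 * B1 + B2)) :=
      mul_le_mul_of_nonneg_left h9 (by linarith)
    calc (M : ℝ) * (0 * (lam * (2 * B1 + B2) + 2 * B1) +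
          ((I.1.sum : ℝ) - 0) * (lam * (2 * B1) + (2 * B1 + B2)))
        = I.2 * (lam * M * (2 * B1) + M * (2 * B1 + B2)) +
          ((I.1.sum : ℝ) - I.2) * (lam * M * (2 * B1) + M * (2 * B1 + B2)) := by ring
      _ ≤ _ := add_le_add h10 h11
  · rintro ⟨s, hs, hsum⟩
    obtain ⟨P, hP⟩ := exists_finset_of_sublist hs
    rw [hsum] at hP
    obtain ⟨σ, h5, h6, h7⟩ := hup P
    rw [hP] at h6 h7
    have h8 : (I.2 : ℝ) * (lam * M * (2 * B1 + B2)) ≤ I.2 * (k * (2 * B1 + B2)) :=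
      mul_le_mul_of_nonneg_left (mul_le_mul_of_nonneg_right h2 (by positivity)) hT0'
    have h9 : ((I.1.sum : ℝ) - I.2) * (lam * M * (2 * B1)) ≤
        ((I.1.sum : ℝ) - I.2) * (k * (2 * B1)) :=
      mul_le_mul_of_nonneg_left (mul_le_mul_of_nonneg_right h2 (by positivity)) (by linarith)
    refine ⟨σ, h5, ?_, ?_⟩
    · rw [h6]
      refine ENNReal.ofReal_le_ofReal ?_
      rw [hEcast]
      nlinarith
    · refine h7.trans ?_
      rw [hvcast, hEcast]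
      nlinarith
  · intro σ hσ hσE hσF
    set G := gadOf B1 B2 k M I hB1 hM0 h4 hpos with hG
    by_contra hne
    have hcompl : ∑ j ∈ (G.pat σ)ᶜ, (I.1[j] : ℝ) =
        (I.1.sum : ℝ) - ∑ j ∈ G.pat σ, (I.1[j] : ℝ) := by
      have h8 := Finset.sum_add_sum_compl (G.pat σ) (fun j : Fin I.1.length => (I.1[j] : ℝ))
      rw [sum_get] at h8
      linarith
    have ht : ∑ j ∈ G.pat σ, (I.1[j] : ℝ) = ((∑ j ∈ G.pat σ, I.1[j] : ℕ) : ℝ) := by
      push_cast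
      rfl
    have ht0 : 0 ≤ ∑ j ∈ G.pat σ, (I.1[j] : ℝ) := by rw [ht]; positivity
    have htS : ∑ j ∈ G.pat σ, (I.1[j] : ℝ) ≤ (I.1.sum : ℝ) := by
      have : 0 ≤ ∑ j ∈ (G.pat σ)ᶜ, (I.1[j] : ℝ) := Finset.sum_nonneg fun _ _ => by positivity
      linarith
    have habs : 1 ≤ |∑ j ∈ G.pat σ, (I.1[j] : ℝ) - (I.2 : ℝ)| := by
      rw [ht] at hne ⊢
      have hne' : (∑ j ∈ G.pat σ, I.1[j] : ℕ) ≠ I.2 := fun h => hne (by rw [h])
      have h5 : (1 : ℤ) ≤ |((∑ j ∈ G.pat σ, I.1[j] : ℕ) : ℤ) - (I.2 : ℤ)| := by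
        apply Int.one_le_abs
        omega
      exact_mod_cast h5
    have h5 := hC (I.1.sum : ℝ) (∑ j ∈ G.pat σ, (I.1[j] : ℝ)) (I.2 : ℝ) M k (σ.flow _)
      hS1' ht0 htS hT0' hTS' habs hCM h1 h2 h3' (fun z hz => by
        have h6 := G.lower hσ hc (E := (budget B1 B2 k M I : ℝ)) (by positivity) hσE hz
        rw [hcompl, hEcast] at h6
        exact h6)
    rw [hvcast, hEcast] at hσF
    linarith

end Pool.Agent.T6.H89.Speed
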