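import Pool.Agent.NPC.Classes

set_option autoImplicit false

/-!
# Total flow time under an energy budget: definitions

A single processor with power function `s ^ α`; jobs with release times and works; preemptive
schedules with an arbitrary measurable speed; completion times, energy, total flow time, optimum;
polynomial-time algorithms which output a schedule of additive error `ε`.
-/

namespace Pool.Agent.T6.H89.Speed

open MeasureTheory Pool.Agent.NPC
open scoped ENNReal

/-- A list of jobs, each given by its release time and its work. -/
abbrev Jobs := List (ℚ × ℚ)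

/-- The list of jobs whose release times and works are given natural numbers. -/
def natJobs (N : List (ℕ × ℕ)) : Jobs := N.map fun p => ((p.1 : ℚ), (p.2 : ℚ))

/-- The release times are nonnegative and the works are positive. -/
def Valid (J : Jobs) : Prop := ∀ j ∈ J, 0 ≤ j.1 ∧ 0 < j.2

/-- the release time of the job `i` -/
def rel (J : Jobs) (i : Fin J.length) : ℝ := ((J[i]).1 : ℝ)

/-- the work of the job `i` -/
def wrk (J : Jobs) (i : Fin J.length) : ℝ := ((J[i]).2 : ℝ)

/-- A schedule for `n` jobs: at every time `t ≥ 0` a speed `≥ 0` and at most one job which is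
processed. -/
structure Schedule (n : ℕ) where
  /-- the speed at time `t` -/
  speed : ℝ → ℝ
  /-- the job processed at time `t` -/
  job : ℝ → Option (Fin n)
  speed_nonneg : ∀ t, 0 ≤ speed t
  measurable_speed : Measurable speed
  measurable_job : ∀ i, MeasurableSet {t | job t = some i}

namespace Schedule

variable {n : ℕ}

/-- The amount of work of the job `i` which is done in the time interval `[0, t)`. -/
noncomputable def done (σ : Schedule n) (i : Fin n) (t : ℝ) : ℝ≥0∞ :=
  ∫⁻ u in Set.Ico 0 t ∩ {u | σ.job u = some i}, ENNReal.ofReal (σ.speed u)

/-- The energy of the schedule: the integral of `speed ^ α` over `[0, ∞)`. -/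
noncomputable def energy (σ : Schedule n) (α : ℝ) : ℝ≥0∞ :=
  ∫⁻ u in Set.Ici (0 : ℝ), ENNReal.ofReal (σ.speed u ^ α)

/-- The schedule is feasible for the jobs `J`: the job processed at any time `t ≥ 0` has been
released and is not yet finished, and every job is finished at some time. -/
def Feasible (J : Jobs) (σ : Schedule J.length) : Prop :=
  (∀ t : ℝ, 0 ≤ t → ∀ i, σ.job t = some i →
    rel J i ≤ t ∧ σ.done i t < ENNReal.ofReal (wrk J i)) ∧
  ∀ i, ∃ t : ℝ, ENNReal.ofReal (wrk J i) ≤ σ.done i t

/-- The completion time of the job `i`: the first time at which its work is done. -/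
noncomputable def completion (J : Jobs) (σ : Schedule J.length) (i : Fin J.length) : ℝ :=
  sInf {t : ℝ | ENNReal.ofReal (wrk J i) ≤ σ.done i t}

/-- The total flow time. -/
noncomputable def flow (J : Jobs) (σ : Schedule J.length) : ℝ :=
  ∑ i, (completion J σ i - rel J i)

end Schedule

/-- `OPT`: the least total flow time of the feasible schedules of energy at most `E`. -/
noncomputable def OPT (α : ℝ) (J : Jobs) (E : ℝ) : ℝ :=
  sInf {f : ℝ | ∃ σ : Schedule J.length, σ.Feasible J ∧ σ.energy α ≤ ENNReal.ofReal E ∧
    σ.flow J = f}

/-- The segment of a list of segments `(job, duration, speed)` which is run at time `u ≥ 0`, when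
the segments are run one after the other from time `0` on. -/
noncomputable def segAt : List (ℕ × ℚ × ℚ) → ℝ → Option (ℕ × ℚ × ℚ)
  | [], _ => none
  | c :: l, u => open Classical in if u < (c.2.1 : ℝ) then some c else segAt l (u - (c.2.1 : ℝ))

/-- The schedule `σ` is the one described by the list `l` of segments `(job, duration, speed)`
with nonnegative durations and speeds: the segments are run one after the other from time `0` on
(a segment whose first entry is not the number `< n` of a job is idle time, and so is the time after
the last segment). -/
def Describes {n : ℕ} (l : List (ℕ × ℚ × ℚ)) (σ : Schedule n) : Prop :=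
  (∀ c ∈ l, 0 ≤ c.2.1 ∧ 0 ≤ c.2.2) ∧ ∀ u : ℝ, 0 ≤ u →
    (∀ i : Fin n, σ.job u = some i ↔ ∃ c, segAt l u = some c ∧ c.1 = i) ∧
    σ.speed u = ((segAt l u).elim 0 fun c => (c.2.2 : ℝ))

/-- There is an efficient algorithm for the power function `s ^ α`: a polynomial-time function
which, given (the code of) admissible jobs, an energy budget `E > 0` and a rational number `ε > 0`,
outputs (the code of a list of segments describing) a feasible schedule of energy at most `E` and
total flow time at most `OPT + ε`. -/
def EfficientAlgorithm (α : ℝ) : Prop :=
  ∃ F : List Bool → List Bool, PolyTime F ∧ ∀ (J : Jobs) (E ε : ℚ), Valid J → 0 < E → 0 < ε →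
    ∃ (l : List (ℕ × ℚ × ℚ)) (σ : Schedule J.length), F (bits (J, E, ε)) = bits l ∧
      Describes l σ ∧ σ.Feasible J ∧ σ.energy α ≤ ENNReal.ofReal (E : ℝ) ∧
      σ.flow J ≤ OPT α J (E : ℝ) + (ε : ℝ)

/-- The optimum can be computed efficiently with an additive error less than `1`: a
polynomial-time function which, given (the code of) admissible jobs and an energy budget `E > 0`,
outputs (the code of) a rational number `q` with `|q - OPT| < 1`. -/
def EfficientValue (α : ℝ) : Prop :=
  ∃ F : List Bool → List Bool, PolyTime F ∧ ∀ (J : Jobs) (E : ℚ), Valid J → 0 < E →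
    ∃ q : ℚ, F (bits (J, E)) = bits q ∧ |(q : ℝ) - OPT α J (E : ℝ)| < 1

end Pool.Agent.T6.H89.Speed
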