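import Pool.Agent.T6.H89.Speed.Lower

set_option autoImplicit false

/-!
# Systems of two-job gadgets: the lower bound
-/

namespace Pool.Agent.T6.H89.Speed

open MeasureTheory Set
open scoped ENNReal

/-- The jobs `J` form `n` gadgets of two jobs: a big job `(R j, a j * M * W)` and a small job
`(R j + a j * g, a j * M * w)`, where `R j = j * D`. -/
structure Gad (J : Jobs) (n : ℕ) (W w g M D : ℝ) (a : Fin n → ℝ) where
  /-- numbering of the jobs -/
  e : Fin n × Fin 2 ≃ Fin J.length
  rb : ∀ j, rel J (e (j, 0)) = (j : ℝ) * D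
  rs : ∀ j, rel J (e (j, 1)) = (j : ℝ) * D + a j * g
  wb : ∀ j, wrk J (e (j, 0)) = a j * (M * W)
  ws : ∀ j, wrk J (e (j, 1)) = a j * (M * w)
  hW : 0 < W
  hw : 0 < w
  hg : 0 ≤ g
  hM : 0 < M
  ha : ∀ j, 0 < a j
  hD : 0 ≤ D

namespace Gad

variable {J : Jobs} {n : ℕ} {W w g M D : ℝ} {a : Fin n → ℝ} (G : Gad J n W w g M D a)
include G

theorem wb_pos (j : Fin n) : 0 < wrk J (G.e (j, 0)) := by
  rw [G.wb]
  have := G.ha j; have := G.hM; have := G.hW
  positivity

theorem ws_pos (j : Fin n) : 0 < wrk J (G.e (j, 1)) := by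
  rw [G.ws]
  have := G.ha j; have := G.hM; have := G.hw
  positivity

theorem rb_nonneg (j : Fin n) : 0 ≤ rel J (G.e (j, 0)) := by
  rw [G.rb]
  have := G.hD
  positivity

theorem rs_nonneg (j : Fin n) : 0 ≤ rel J (G.e (j, 1)) := by
  rw [G.rs]
  have := G.hD
  have := G.ha j; have := G.hg
  positivity

/-- the bound for a gadget in which the big job is finished first -/
theorem lower_A {σ : Schedule J.length} (hσ : σ.Feasible J) {α β : ℝ} (h : α.HolderConjugate β)
    {z : ℝ} (hz : 0 ≤ z) (j : Fin n)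
    (hC : Schedule.completion J σ (G.e (j, 0)) ≤ Schedule.completion J σ (G.e (j, 1))) :
    ENNReal.ofReal (β * 2 ^ (1 / β) * z * (a j * (M * W)) + β * z * (a j * (M * w))) ≤
      ENNReal.ofReal ((Schedule.completion J σ (G.e (j, 0)) - rel J (G.e (j, 0))) +
        (Schedule.completion J σ (G.e (j, 1)) - rel J (G.e (j, 1))) + a j * g) +
      ENNReal.ofReal (z ^ α / (α - 1)) *
        (σ.energyOf α (G.e (j, 0)) + σ.energyOf α (G.e (j, 1))) := by
  have hβ : 0 < β := h.symm.pos
  have hα : 1 < α := h.lt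
  have hμ : 0 ≤ z ^ α / (α - 1) := div_nonneg (Real.rpow_nonneg hz _) (by linarith)
  have h2 : (0 : ℝ) ≤ 2 ^ (1 / β) := by positivity
  rw [← G.wb j, ← G.ws j]
  refine Schedule.cost_le hσ (G.wb_pos j) (G.ws_pos j) (G.rb_nonneg j) (G.rs_nonneg j)
    (by positivity) (by positivity) hμ (mul_nonneg (G.ha j).le G.hg) fun u hu => ?_
  have hs0 := σ.speed_nonneg u
  have hpow : 0 ≤ z ^ α / (α - 1) * σ.speed u ^ α := mul_nonneg hμ (Real.rpow_nonneg hs0 _)
  have hne : G.e (j, 0) ≠ G.e (j, 1) := by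
    intro h
    have := G.e.injective h
    simp at this
  by_cases hb : u ∈ σ.at_ (G.e (j, 0))
  · have hs : u ∉ σ.at_ (G.e (j, 1)) := by
      intro hs
      have h1 : σ.job u = some (G.e (j, 0)) := hb
      have h2 : σ.job u = some (G.e (j, 1)) := hs
      rw [h1] at h2
      exact hne (Option.some.inj h2)
    rw [indicator_of_mem hb, indicator_of_notMem hs, indicator_of_mem hb, indicator_of_notMem hs,
      add_zero, add_zero]
    have h3 := (hσ.1 u hu _ hb).1
    have h4 := Schedule.le_completion hσ hu hb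
    rw [indicator_of_mem (show u ∈ Icc _ _ from ⟨h3, h4⟩)]
    have h5 : (1 : ℝ≥0∞) ≤ (Icc (rel J (G.e (j, 1)))
        (Schedule.completion J σ (G.e (j, 1)))).indicator (fun _ => 1) u +
        (Icc (rel J (G.e (j, 0))) (rel J (G.e (j, 0)) + a j * g)).indicator (fun _ => 1) u := by
      by_cases h6 : u ≤ rel J (G.e (j, 0)) + a j * g
      · rw [indicator_of_mem (show u ∈ Icc (rel J (G.e (j, 0))) _ from ⟨h3, h6⟩)]
        exact le_add_self
      · rw [indicator_of_mem (show u ∈ Icc (rel J (G.e (j, 1))) _ from ⟨?_, h4.trans hC⟩)]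
        · exact le_self_add
        · rw [G.rs, ← G.rb]
          exact (not_le.1 h6).le
    have h6 := young h (ν := 2) zero_le_two hz hs0
    calc ENNReal.ofReal (β * 2 ^ (1 / β) * z * σ.speed u)
        ≤ ENNReal.ofReal (1 + 1 + z ^ α / (α - 1) * σ.speed u ^ α) :=
          ENNReal.ofReal_le_ofReal (by linarith)
      _ = 1 + 1 + ENNReal.ofReal (z ^ α / (α - 1) * σ.speed u ^ α) := by
          rw [ENNReal.ofReal_add (by norm_num) hpow, ENNReal.ofReal_add (by norm_num) (by norm_num),
            ENNReal.ofReal_one]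
      _ ≤ _ := by
          refine (add_le_add (add_le_add (le_refl (1 : ℝ≥0∞)) h5) le_rfl).trans (le_of_eq ?_)
          ring
  · rw [indicator_of_notMem hb, zero_add]
    by_cases hs : u ∈ σ.at_ (G.e (j, 1))
    · rw [indicator_of_mem hs, indicator_of_notMem hb, indicator_of_mem hs, zero_add]
      have h3 := (hσ.1 u hu _ hs).1
      have h4 := Schedule.le_completion hσ hu hs
      rw [indicator_of_mem (s := Icc (rel J (G.e (j, 1))) _) (show u ∈ Icc _ _ from ⟨h3, h4⟩)]
      have h6 := young h (ν := 1) zero_le_one hz hs0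
      rw [Real.one_rpow, mul_one] at h6
      calc ENNReal.ofReal (β * z * σ.speed u)
          ≤ ENNReal.ofReal (1 + z ^ α / (α - 1) * σ.speed u ^ α) :=
            ENNReal.ofReal_le_ofReal h6
        _ = 1 + ENNReal.ofReal (z ^ α / (α - 1) * σ.speed u ^ α) := by
            rw [ENNReal.ofReal_add (by norm_num) hpow, ENNReal.ofReal_one]
        _ ≤ _ := by
            refine add_le_add ?_ le_rfl
            rw [add_right_comm]
            exact le_add_self
    · rw [indicator_of_notMem hs]
      exact zero_le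

/-- the bound for a gadget in which the small job is finished first -/
theorem lower_B {σ : Schedule J.length} (hσ : σ.Feasible J) {α β : ℝ} (h : α.HolderConjugate β)
    {z : ℝ} (hz : 0 ≤ z) (j : Fin n)
    (hC : Schedule.completion J σ (G.e (j, 1)) ≤ Schedule.completion J σ (G.e (j, 0))) :
    ENNReal.ofReal (β * z * (a j * (M * W)) + β * 2 ^ (1 / β) * z * (a j * (M * w))) ≤
      ENNReal.ofReal ((Schedule.completion J σ (G.e (j, 0)) - rel J (G.e (j, 0))) +
        (Schedule.completion J σ (G.e (j, 1)) - rel J (G.e (j, 1))) + 0) +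
      ENNReal.ofReal (z ^ α / (α - 1)) *
        (σ.energyOf α (G.e (j, 0)) + σ.energyOf α (G.e (j, 1))) := by
  have hβ : 0 < β := h.symm.pos
  have hα : 1 < α := h.lt
  have hμ : 0 ≤ z ^ α / (α - 1) := div_nonneg (Real.rpow_nonneg hz _) (by linarith)
  have h2 : (0 : ℝ) ≤ 2 ^ (1 / β) := by positivity
  rw [← G.wb j, ← G.ws j]
  refine Schedule.cost_le hσ (G.wb_pos j) (G.ws_pos j) (G.rb_nonneg j) (G.rs_nonneg j)
    (by positivity) (by positivity) hμ le_rfl fun u hu => ?_
  have hs0 := σ.speed_nonneg u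
  have hpow : 0 ≤ z ^ α / (α - 1) * σ.speed u ^ α := mul_nonneg hμ (Real.rpow_nonneg hs0 _)
  have hne : G.e (j, 0) ≠ G.e (j, 1) := by
    intro h
    have := G.e.injective h
    simp at this
  by_cases hb : u ∈ σ.at_ (G.e (j, 0))
  · have hs : u ∉ σ.at_ (G.e (j, 1)) := by
      intro hs
      have h1 : σ.job u = some (G.e (j, 0)) := hb
      have h2 : σ.job u = some (G.e (j, 1)) := hs
      rw [h1] at h2
      exact hne (Option.some.inj h2)
    rw [indicator_of_mem hb, indicator_of_notMem hs, indicator_of_mem hb, indicator_of_notMem hs,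
      add_zero, add_zero]
    have h3 := (hσ.1 u hu _ hb).1
    have h4 := Schedule.le_completion hσ hu hb
    rw [indicator_of_mem (s := Icc (rel J (G.e (j, 0))) (Schedule.completion J σ (G.e (j, 0))))
      (show u ∈ Icc _ _ from ⟨h3, h4⟩)]
    have h6 := young h (ν := 1) zero_le_one hz hs0
    rw [Real.one_rpow, mul_one] at h6
    calc ENNReal.ofReal (β * z * σ.speed u)
        ≤ ENNReal.ofReal (1 + z ^ α / (α - 1) * σ.speed u ^ α) :=
          ENNReal.ofReal_le_ofReal h6
      _ = 1 + ENNReal.ofReal (z ^ α / (α - 1) * σ.speed u ^ α) := by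
          rw [ENNReal.ofReal_add (by norm_num) hpow, ENNReal.ofReal_one]
      _ ≤ _ := by
          refine add_le_add ?_ le_self_add
          rw [add_assoc]
          exact le_self_add
  · rw [indicator_of_notMem hb, zero_add]
    by_cases hs : u ∈ σ.at_ (G.e (j, 1))
    · rw [indicator_of_mem hs, indicator_of_notMem hb, indicator_of_mem hs, zero_add]
      have h3 := (hσ.1 u hu _ hs).1
      have h4 := Schedule.le_completion hσ hu hs
      have h5 : rel J (G.e (j, 0)) ≤ rel J (G.e (j, 1)) := by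
        rw [G.rs, G.rb]
        have := mul_nonneg (G.ha j).le G.hg
        linarith
      rw [indicator_of_mem (s := Icc (rel J (G.e (j, 1))) _) (show u ∈ Icc _ _ from ⟨h3, h4⟩),
        indicator_of_mem (s := Icc (rel J (G.e (j, 0))) (Schedule.completion J σ (G.e (j, 0))))
        (show u ∈ Icc _ _ from ⟨h5.trans h3, h4.trans hC⟩)]
      have h6 := young h (ν := 2) zero_le_two hz hs0
      calc ENNReal.ofReal (β * 2 ^ (1 / β) * z * σ.speed u)
          ≤ ENNReal.ofReal (1 + 1 + z ^ α / (α - 1) * σ.speed u ^ α) :=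
            ENNReal.ofReal_le_ofReal (by linarith)
        _ = 1 + 1 + ENNReal.ofReal (z ^ α / (α - 1) * σ.speed u ^ α) := by
            rw [ENNReal.ofReal_add (by norm_num) hpow,
              ENNReal.ofReal_add (by norm_num) (by norm_num), ENNReal.ofReal_one]
        _ ≤ _ := by
            refine add_le_add ?_ le_rfl
            exact le_self_add
    · rw [indicator_of_notMem hs]
      exact zero_le

omit G in
theorem sum_e {J : Jobs} {n : ℕ} (e : Fin n × Fin 2 ≃ Fin J.length) {A : Type*} [AddCommMonoid A]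
    (f : Fin J.length → A) : ∑ i, f i = ∑ j, (f (e (j, 0)) + f (e (j, 1))) := by
  rw [← Equiv.sum_comp e, Fintype.sum_prod_type]
  simp

open Classical in
/-- the gadgets in which the big job is finished first -/
noncomputable def pat (σ : Schedule J.length) : Finset (Fin n) :=
  Finset.univ.filter fun j =>
    Schedule.completion J σ (G.e (j, 0)) ≤ Schedule.completion J σ (G.e (j, 1))

/-- **The lower bound.** -/
theorem lower {σ : Schedule J.length} (hσ : σ.Feasible J) {α β : ℝ} (h : α.HolderConjugate β)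
    {E : ℝ} (hE : 0 ≤ E) (hσE : σ.energy α ≤ ENNReal.ofReal E) {z : ℝ} (hz : 0 ≤ z) :
    β * z * M * ((∑ j ∈ G.pat σ, a j) * (2 ^ (1 / β) * W + w) +
      (∑ j ∈ (G.pat σ)ᶜ, a j) * (2 ^ (1 / β) * w + W)) ≤
      σ.flow J + (∑ j ∈ G.pat σ, a j) * g + z ^ α / (α - 1) * E := by
  classical
  have hβ : 0 < β := h.symm.pos
  have hα : 1 < α := h.lt
  have hμ : 0 ≤ z ^ α / (α - 1) := div_nonneg (Real.rpow_nonneg hz _) (by linarith)
  have h2 : (0 : ℝ) ≤ 2 ^ (1 / β) := by positivity
  set x : Fin n → ℝ := fun j => if j ∈ G.pat σ then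
    β * 2 ^ (1 / β) * z * (a j * (M * W)) + β * z * (a j * (M * w)) else
    β * z * (a j * (M * W)) + β * 2 ^ (1 / β) * z * (a j * (M * w)) with hx
  set fl : Fin n → ℝ := fun j => (Schedule.completion J σ (G.e (j, 0)) - rel J (G.e (j, 0))) +
        (Schedule.completion J σ (G.e (j, 1)) - rel J (G.e (j, 1))) with hfl
  set y : Fin n → ℝ := fun j => fl j + (if j ∈ G.pat σ then a j * g else 0) with hy
  have hx0 : ∀ j, 0 ≤ x j := by
    intro j
    have := (G.ha j).le; have := G.hM.le; have := G.hW.le; have := G.hw.le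
    simp only [hx]
    split_ifs <;> positivity
  have hfl0 : ∀ j, 0 ≤ fl j := by
    intro j
    have h3 := Schedule.rel_le_completion hσ (G.wb_pos j)
    have h4 := Schedule.rel_le_completion hσ (G.ws_pos j)
    simp only [hfl]
    linarith
  have hy0 : ∀ j, 0 ≤ y j := by
    intro j
    have h3 := hfl0 j
    have h4 := mul_nonneg (G.ha j).le G.hg
    simp only [hy]
    split_ifs <;> linarith
  have h3 : ∀ j, ENNReal.ofReal (x j) ≤ ENNReal.ofReal (y j) + ENNReal.ofReal (z ^ α / (α - 1)) *
      (σ.energyOf α (G.e (j, 0)) + σ.energyOf α (G.e (j, 1))) := by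
    intro j
    simp only [hx, hy, hfl]
    by_cases hj : j ∈ G.pat σ
    · rw [if_pos hj, if_pos hj]
      have hj' : Schedule.completion J σ (G.e (j, 0)) ≤ Schedule.completion J σ (G.e (j, 1)) := by
        simpa [pat] using hj
      exact G.lower_A hσ h hz j hj'
    · rw [if_neg hj, if_neg hj]
      have hj' : Schedule.completion J σ (G.e (j, 1)) ≤ Schedule.completion J σ (G.e (j, 0)) := by
        have : ¬ Schedule.completion J σ (G.e (j, 0)) ≤ Schedule.completion J σ (G.e (j, 1)) := by
          simpa [pat] using hj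
        exact (not_le.1 this).le
      exact G.lower_B hσ h hz j hj'
  have h4 : ENNReal.ofReal (∑ j, x j) ≤ ENNReal.ofReal (∑ j, y j + z ^ α / (α - 1) * E) := by
    calc ENNReal.ofReal (∑ j, x j) = ∑ j, ENNReal.ofReal (x j) :=
          ENNReal.ofReal_sum_of_nonneg fun j _ => hx0 j
      _ ≤ ∑ j, (ENNReal.ofReal (y j) + ENNReal.ofReal (z ^ α / (α - 1)) *
          (σ.energyOf α (G.e (j, 0)) + σ.energyOf α (G.e (j, 1)))) :=
          Finset.sum_le_sum fun j _ => h3 j
      _ = ENNReal.ofReal (∑ j, y j) + ENNReal.ofReal (z ^ α / (α - 1)) *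
          ∑ i, σ.energyOf α i := by
          rw [Finset.sum_add_distrib, ← ENNReal.ofReal_sum_of_nonneg fun j _ => hy0 j,
            ← Finset.mul_sum, sum_e G.e]
      _ ≤ ENNReal.ofReal (∑ j, y j) + ENNReal.ofReal (z ^ α / (α - 1)) * ENNReal.ofReal E := by
          gcongr
          exact (Schedule.sum_energyOf_le σ α).trans hσE
      _ = _ := by
          rw [← ENNReal.ofReal_mul hμ, ← ENNReal.ofReal_add (Finset.sum_nonneg fun j _ => hy0 j)
            (mul_nonneg hμ hE)]
  have h5 := (ENNReal.ofReal_le_ofReal_iff (add_nonneg (Finset.sum_nonneg fun j _ => hy0 j)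
    (mul_nonneg hμ hE))).1 h4
  have h6 : ∑ j, y j = σ.flow J + (∑ j ∈ G.pat σ, a j) * g := by
    simp only [hy]
    rw [Finset.sum_add_distrib, Finset.sum_ite_mem, Finset.univ_inter, Finset.sum_mul]
    congr 1
    unfold Schedule.flow
    rw [sum_e G.e]
  have h7 : ∑ j, x j = β * z * M * ((∑ j ∈ G.pat σ, a j) * (2 ^ (1 / β) * W + w) +
      (∑ j ∈ (G.pat σ)ᶜ, a j) * (2 ^ (1 / β) * w + W)) := by
    have h8 : ∑ j, x j = ∑ j ∈ G.pat σ, x j + ∑ j ∈ (G.pat σ)ᶜ, x j :=
      (Finset.sum_add_sum_compl _ _).symm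
    have h9 : ∑ j ∈ G.pat σ, x j = ∑ j ∈ G.pat σ, a j * (β * z * M * (2 ^ (1 / β) * W + w)) :=
      Finset.sum_congr rfl fun j hj => by
        simp only [hx]
        rw [if_pos hj]
        ring
    have h10 : ∑ j ∈ (G.pat σ)ᶜ, x j =
        ∑ j ∈ (G.pat σ)ᶜ, a j * (β * z * M * (2 ^ (1 / β) * w + W)) :=
      Finset.sum_congr rfl fun j hj => by
        simp only [hx]
        rw [if_neg (Finset.mem_compl.1 hj)]
        ring
    rw [h8, h9, h10, ← Finset.sum_mul, ← Finset.sum_mul]
    ring
  rw [h6, h7] at h5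
  exact h5

end Gad

end Pool.Agent.T6.H89.Speed
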