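import Pool.Agent.T6.H89.Speed.Upper

set_option autoImplicit false

/-!
# Systems of two-job gadgets: the upper bound
-/

namespace Pool.Agent.T6.H89.Speed

open MeasureTheory Set
open scoped ENNReal

/-- two intervals -/
def U (x : Fin 4 → ℝ) : Set ℝ := Ico (x 0) (x 1) ∪ Ico (x 2) (x 3)

theorem measurableSet_U (x : Fin 4 → ℝ) : MeasurableSet (U x) :=
  measurableSet_Ico.union measurableSet_Ico

theorem U_subset {x : Fin 4 → ℝ} (h1 : x 0 ≤ x 1) (h2 : x 1 ≤ x 2) (h3 : x 2 ≤ x 3) :
    U x ⊆ Ico (x 0) (x 3) := by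
  rintro u (hu | hu)
  · exact ⟨hu.1, hu.2.trans_le (h2.trans h3)⟩
  · exact ⟨(h1.trans h2).trans hu.1, hu.2⟩

theorem volume_U {x : Fin 4 → ℝ} (h1 : x 0 ≤ x 1) (h2 : x 1 ≤ x 2) (h3 : x 2 ≤ x 3) :
    volume (U x) = ENNReal.ofReal ((x 1 - x 0) + (x 3 - x 2)) := by
  unfold U
  rw [measure_union _ measurableSet_Ico, Real.volume_Ico, Real.volume_Ico,
    ← ENNReal.ofReal_add (by linarith) (by linarith)]
  rw [Set.disjoint_left]
  intro u hu hu'
  exact absurd (hu.2.trans_le (h2.trans hu'.1)) (lt_irrefl _)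

theorem U_pos {x : Fin 4 → ℝ} {u : ℝ} (hu : u ∈ U x) : 0 < volume (U x ∩ Ici u) := by
  rcases hu with hu | hu
  · have h1 : Ico u (x 1) ⊆ U x ∩ Ici u := fun y hy =>
      ⟨Or.inl ⟨hu.1.trans hy.1, hy.2⟩, hy.1⟩
    refine lt_of_lt_of_le ?_ (measure_mono h1)
    rw [Real.volume_Ico, ENNReal.ofReal_pos]
    linarith [hu.2]
  · have h1 : Ico u (x 3) ⊆ U x ∩ Ici u := fun y hy =>
      ⟨Or.inr ⟨hu.1.trans hy.1, hy.2⟩, hy.1⟩
    refine lt_of_lt_of_le ?_ (measure_mono h1)
    rw [Real.volume_Ico, ENNReal.ofReal_pos]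
    linarith [hu.2]

namespace Gad

variable {J : Jobs} {n : ℕ} {W w g M D : ℝ} {a : Fin n → ℝ} (G : Gad J n W w g M D a)
include G

/-- **The upper bound.** -/
theorem upper {α β : ℝ} (h : α.HolderConjugate β) (P : Finset (Fin n))
    (hgκ : g * 2 ^ (1 / α) ≤ M * W) (hsp : ∀ j, a j * (M * (W + w)) ≤ D) :
    ∃ σ : Schedule J.length, σ.Feasible J ∧
      σ.energy α = ENNReal.ofReal (M * ((∑ j ∈ P, a j) * (2 ^ (1 / β) * W + w) +
        (∑ j ∈ Pᶜ, a j) * (2 ^ (1 / β) * w + W))) ∧
      σ.flow J ≤ (∑ j ∈ P, a j) * (2 ^ (1 / β) * (M * W) + M * w - g) +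
        (∑ j ∈ Pᶜ, a j) * (2 ^ (1 / β) * (M * w) + M * W) := by
  classical
  have hβ : 0 < β := h.symm.pos
  have hα : 1 < α := h.lt
  have hW := G.hW
  have hw := G.hw
  have hM := G.hM
  have hg := G.hg
  set κ : ℝ := 2 ^ (1 / α) with hκ
  set lam : ℝ := 2 ^ (1 / β) with hlam
  have hκ1 : 1 ≤ κ := Real.one_le_rpow one_le_two (by positivity)
  have hκ0 : 0 < κ := by linarith
  have hκl : κ * lam = 2 := by
    rw [hκ, hlam, ← Real.rpow_add two_pos, one_div, one_div, h.inv_add_inv_eq_one, Real.rpow_one]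
  have hl0 : 0 < lam := by positivity
  have hκp : κ ^ (α - 1) = lam := by
    rw [hκ, hlam, ← Real.rpow_mul zero_le_two]
    congr 1
    have h1 := h.inv_add_inv_eq_one
    have h2 : 1 / α * (α - 1) = 1 - α⁻¹ := by field_simp
    rw [h2, one_div]
    linarith
  have hinv : lam = 2 / κ := by field_simp; linarith
  have hg1 : g ≤ M * W / κ := by
    rw [le_div_iff₀ hκ0]
    exact hgκ
  have hg2 : g ≤ M * W := hg1.trans (div_le_self (by positivity) hκ1)
  -- break points, speeds, completion times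
  let R : Fin n → ℝ := fun j => (j : ℝ) * D
  let x : Fin n × Fin 2 → Fin 4 → ℝ := fun p =>
    if p.1 ∈ P then
      (if p.2 = 0 then ![R p.1, R p.1 + a p.1 * (M * W / κ), R p.1 + a p.1 * (M * W / κ),
        R p.1 + a p.1 * (M * W / κ)]
      else ![R p.1 + a p.1 * (M * W / κ), R p.1 + a p.1 * (M * W / κ) + a p.1 * (M * w),
        R p.1 + a p.1 * (M * W / κ) + a p.1 * (M * w),
        R p.1 + a p.1 * (M * W / κ) + a p.1 * (M * w)])
    else
      (if p.2 = 0 then ![R p.1, R p.1 + a p.1 * g, R p.1 + a p.1 * g + a p.1 * (M * w / κ),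
        R p.1 + a p.1 * (M * W) + a p.1 * (M * w / κ)]
      else ![R p.1 + a p.1 * g, R p.1 + a p.1 * g + a p.1 * (M * w / κ),
        R p.1 + a p.1 * g + a p.1 * (M * w / κ), R p.1 + a p.1 * g + a p.1 * (M * w / κ)])
  let v : Fin n × Fin 2 → ℝ := fun p =>
    if p.1 ∈ P then (if p.2 = 0 then κ else 1) else (if p.2 = 0 then 1 else κ)
  have hv : ∀ p, 0 < v p := by
    intro p
    simp only [v]
    split_ifs <;> positivity
  have hae : ∀ j, 0 ≤ a j * g := fun j => mul_nonneg (G.ha j).le hg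
  have ha1 : ∀ j, 0 ≤ a j * (M * W / κ) := fun j => mul_nonneg (G.ha j).le (by positivity)
  have ha2 : ∀ j, 0 ≤ a j * (M * w) := fun j => mul_nonneg (G.ha j).le (by positivity)
  have ha3 : ∀ j, 0 ≤ a j * (M * w / κ) := fun j => mul_nonneg (G.ha j).le (by positivity)
  have ha4 : ∀ j, a j * g ≤ a j * (M * W) := fun j => mul_le_mul_of_nonneg_left hg2 (G.ha j).le
  have ha5 : ∀ j, a j * g ≤ a j * (M * W / κ) := fun j =>
    mul_le_mul_of_nonneg_left hg1 (G.ha j).le
  have ha6 : ∀ j, a j * (M * W / κ) ≤ a j * (M * W) := fun j =>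
    mul_le_mul_of_nonneg_left (div_le_self (by positivity) hκ1) (G.ha j).le
  have ha7 : ∀ j, a j * (M * w / κ) ≤ a j * (M * w) := fun j =>
    mul_le_mul_of_nonneg_left (div_le_self (by positivity) hκ1) (G.ha j).le
  have hsp' : ∀ j, a j * (M * W) + a j * (M * w) ≤ D := fun j => by
    have := hsp j
    linarith
  have hx : ∀ p, x p 0 ≤ x p 1 ∧ x p 1 ≤ x p 2 ∧ x p 2 ≤ x p 3 ∧ R p.1 ≤ x p 0 ∧
      x p 3 ≤ R p.1 + D := by
    rintro ⟨j, y⟩
    have e1 := hae j; have e2 := ha1 j; have e3 := ha2 j; have e4 := ha3 j; have e5 := ha4 j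
    have e6 := ha5 j; have e7 := ha6 j; have e8 := ha7 j; have e9 := hsp' j
    simp only [x]
    split_ifs <;> simp <;> (try constructor) <;> (try constructor) <;> (try constructor) <;>
      linarith
  have hdis : ∀ p q, p ≠ q → Disjoint (U (x p)) (U (x q)) := by
    intro p q hpq
    obtain ⟨p1, p2, p3, p4, p5⟩ := hx p
    obtain ⟨q1, q2, q3, q4, q5⟩ := hx q
    have hUp := U_subset p1 p2 p3
    have hUq := U_subset q1 q2 q3
    by_cases h1 : p.1 = q.1
    · obtain ⟨j, y⟩ := p
      obtain ⟨j', y'⟩ := q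
      simp only at h1
      subst h1
      have key : Disjoint (U (x (j, 0))) (U (x (j, 1))) := by
        have e1 := hae j; have e2 := ha1 j; have e3 := ha2 j; have e4 := ha3 j; have e5 := ha4 j
        have e6 := ha5 j; have e7 := ha6 j; have e8 := ha7 j
        rw [Set.disjoint_left]
        intro u hu hu'
        simp only [U, x, if_true, if_neg (show (1 : Fin 2) ≠ 0 by decide)] at hu hu'
        by_cases hjP : j ∈ P
        · simp only [if_pos hjP] at hu hu'
          simp at hu hu'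
          linarith [hu.1, hu.2, hu'.1, hu'.2]
        · simp only [if_neg hjP] at hu hu'
          simp at hu hu'
          rcases hu with hu | hu <;> linarith [hu.1, hu.2, hu'.1, hu'.2]
      have hy : (y = 0 ∧ y' = 1) ∨ (y = 1 ∧ y' = 0) := by
        have : y ≠ y' := fun h => hpq (by rw [h])
        omega
      rcases hy with ⟨rfl, rfl⟩ | ⟨rfl, rfl⟩
      · exact key
      · exact key.symm
    · have h2 : ∀ i j : Fin n, i < j → R i + D ≤ R j := by
        intro i j hij
        have h3 : ((i : ℕ) : ℝ) + 1 ≤ ((j : ℕ) : ℝ) := by exact_mod_cast hij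
        have := mul_le_mul_of_nonneg_right h3 G.hD
        simp only [R]
        linarith
      rw [Set.disjoint_left]
      intro u hu hu'
      have hu1 := hUp hu
      have hu2 := hUq hu'
      rcases lt_or_gt_of_ne h1 with h3 | h3
      · have := h2 _ _ h3
        linarith [hu1.2, hu2.1]
      · have := h2 _ _ h3
        linarith [hu2.2, hu1.1]
  have hrw : ∀ p : Fin n × Fin 2, rel J (G.e p) = R p.1 + (if p.2 = 0 then 0 else a p.1 * g) ∧
      wrk J (G.e p) = (if p.2 = 0 then a p.1 * (M * W) else a p.1 * (M * w)) := by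
    rintro ⟨j, y⟩
    have hy : y = 0 ∨ y = 1 := by omega
    rcases hy with rfl | rfl
    · simp [G.rb, G.wb, R]
    · simp [G.rs, G.ws, R]
  have hvol : ∀ p, volume (U (x p)) = ENNReal.ofReal (wrk J (G.e p) / v p) := by
    intro p
    obtain ⟨p1, p2, p3, p4, p5⟩ := hx p
    rw [volume_U p1 p2 p3, (hrw p).2]
    congr 1
    simp only [x, v]
    split_ifs <;> simp <;> field_simp
  obtain ⟨σ, h1, h2, h3⟩ := exists_of_sets (J := J) (A := fun i => U (x (G.e.symm i)))
    (v := fun i => v (G.e.symm i)) (c := fun i => x (G.e.symm i) 3) (α := α) hα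
    (fun i => measurableSet_U _) (fun i => hv _)
    (fun i j hij => hdis _ _ fun h => hij (G.e.symm.injective h))
    (fun i => by
      rw [← G.e.apply_symm_apply i, (hrw _).1]
      have := hae (G.e.symm i).1
      have := G.hD
      simp only [R]
      split_ifs <;> positivity)
    (fun i => by
      rw [← G.e.apply_symm_apply i, (hrw _).2]
      have := G.ha (G.e.symm i).1
      split_ifs <;> positivity)
    (fun i => by
      obtain ⟨p1, p2, p3, p4, p5⟩ := hx (G.e.symm i)
      refine (U_subset p1 p2 p3).trans (Ico_subset_Ico_left ?_)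
      conv_lhs => rw [← G.e.apply_symm_apply i, (hrw _).1]
      have e1 := hae (G.e.symm i).1
      have e6 := ha5 (G.e.symm i).1
      simp only [x]
      split_ifs <;> simp <;> linarith)
    (fun i => by
      rw [hvol, G.e.apply_symm_apply])
    (fun i u hu => U_pos hu)
  refine ⟨σ, h1, ?_, ?_⟩
  · rw [h2]
    congr 1
    rw [sum_e G.e]
    have h4 : ∀ j, v (G.e.symm (G.e (j, 0))) ^ (α - 1) * wrk J (G.e (j, 0)) +
        v (G.e.symm (G.e (j, 1))) ^ (α - 1) * wrk J (G.e (j, 1)) =
        if j ∈ P then a j * (M * (lam * W + w)) else a j * (M * (lam * w + W)) := by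
      intro j
      rw [G.e.symm_apply_apply, G.e.symm_apply_apply, G.wb, G.ws]
      simp only [v, if_true, if_neg (show (1 : Fin 2) ≠ 0 by decide)]
      split_ifs
      · rw [hκp, Real.one_rpow]; ring
      · rw [hκp, Real.one_rpow]; ring
    simp only [h4]
    rw [← Finset.sum_add_sum_compl P]
    rw [Finset.sum_congr rfl fun j hj => if_pos hj, Finset.sum_congr rfl fun j hj =>
      if_neg (Finset.mem_compl.1 hj), ← Finset.sum_mul, ← Finset.sum_mul]
    ring
  · refine h3.trans (le_of_eq ?_)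
    rw [sum_e G.e]
    have h4 : ∀ j, (x (G.e.symm (G.e (j, 0))) 3 - rel J (G.e (j, 0))) +
        (x (G.e.symm (G.e (j, 1))) 3 - rel J (G.e (j, 1))) =
        if j ∈ P then a j * (lam * (M * W) + M * w - g) else a j * (lam * (M * w) + M * W) := by
      intro j
      rw [G.e.symm_apply_apply, G.e.symm_apply_apply, G.rb, G.rs, hinv]
      simp only [x, if_true, if_neg (show (1 : Fin 2) ≠ 0 by decide)]
      split_ifs
      · simp [R]; field_simp; ring
      · simp [R]; field_simp; ring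
    simp only [h4]
    rw [← Finset.sum_add_sum_compl P]
    rw [Finset.sum_congr rfl fun j hj => if_pos hj, Finset.sum_congr rfl fun j hj =>
      if_neg (Finset.mem_compl.1 hj), ← Finset.sum_mul, ← Finset.sum_mul]

end Gad

end Pool.Agent.T6.H89.Speed
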