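import Pool.Agent.T6.H89.Speed.Defs

set_option autoImplicit false

/-!
# Lower bound for the cost of two jobs (potential function argument)
-/

namespace Pool.Agent.T6.H89.Speed

open MeasureTheory Set
open scoped ENNReal

/-- weighted inequality of the arithmetic and geometric means -/
theorem young {α β : ℝ} (h : α.HolderConjugate β) {ν z s : ℝ} (hν : 0 ≤ ν) (hz : 0 ≤ z)
    (hs : 0 ≤ s) : β * ν ^ (1 / β) * z * s ≤ ν + z ^ α / (α - 1) * s ^ α := by
  have h1 := Real.young_inequality_of_nonneg (mul_nonneg hz hs) (Real.rpow_nonneg hν (1 / β)) h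
  have hβ : 0 < β := h.symm.pos
  have hα : 1 < α := h.lt
  have h2 : (ν ^ (1 / β)) ^ β = ν := by
    rw [← Real.rpow_mul hν, one_div_mul_cancel hβ.ne', Real.rpow_one]
  rw [h2, Real.mul_rpow hz hs] at h1
  have h3 : β / α = 1 / (α - 1) := by
    have := h.sub_one_mul_conj
    have h4 : α - 1 ≠ 0 := by linarith
    field_simp
    linarith
  calc β * ν ^ (1 / β) * z * s = β * (z * s * ν ^ (1 / β)) := by ring
    _ ≤ β * (z ^ α * s ^ α / α + ν / β) := mul_le_mul_of_nonneg_left h1 hβ.le
    _ = ν + (β / α) * (z ^ α * s ^ α) := by field_simp; ring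
    _ = ν + z ^ α / (α - 1) * s ^ α := by rw [h3]; ring

namespace Schedule

variable {J : Jobs} {σ : Schedule J.length}

/-- the times at which the job `i` is processed -/
def at_ {n : ℕ} (σ : Schedule n) (i : Fin n) : Set ℝ := {u | σ.job u = some i}

theorem measurableSet_at {n : ℕ} (σ : Schedule n) (i : Fin n) : MeasurableSet (σ.at_ i) :=
  σ.measurable_job i

theorem done_eq {n : ℕ} (σ : Schedule n) (i : Fin n) (t : ℝ) :
    σ.done i t = ∫⁻ u in Ico 0 t ∩ σ.at_ i, ENNReal.ofReal (σ.speed u) := rfl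

theorem done_mono {n : ℕ} (σ : Schedule n) (i : Fin n) {t t' : ℝ} (h : t ≤ t') :
    σ.done i t ≤ σ.done i t' := by
  rw [done_eq, done_eq]
  exact lintegral_mono_set (inter_subset_inter_left _ (Ico_subset_Ico_right h))

theorem done_eq_zero (hσ : σ.Feasible J) (i : Fin J.length) {t : ℝ} (ht : t ≤ rel J i) :
    σ.done i t = 0 := by
  rw [done_eq]
  have : Ico 0 t ∩ σ.at_ i = ∅ := by
    ext u
    simp only [mem_inter_iff, mem_Ico, mem_empty_iff_false, iff_false, not_and]
    rintro ⟨h1, h2⟩ h3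
    have := (hσ.1 u h1 i h3).1
    linarith
  rw [this]
  simp

theorem lt_of_done (hσ : σ.Feasible J) {i : Fin J.length} (hw : 0 < wrk J i) {t : ℝ}
    (ht : ENNReal.ofReal (wrk J i) ≤ σ.done i t) : rel J i < t := by
  by_contra hc
  rw [done_eq_zero hσ i (not_lt.1 hc)] at ht
  have h1 : 0 < ENNReal.ofReal (wrk J i) := ENNReal.ofReal_pos.2 hw
  exact absurd (lt_of_lt_of_le h1 ht) (lt_irrefl 0)

theorem bddBelow (hσ : σ.Feasible J) {i : Fin J.length} (hw : 0 < wrk J i) :
    BddBelow {t : ℝ | ENNReal.ofReal (wrk J i) ≤ σ.done i t} :=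
  ⟨rel J i, fun _ ht => (lt_of_done hσ hw ht).le⟩

theorem rel_le_completion (hσ : σ.Feasible J) {i : Fin J.length} (hw : 0 < wrk J i) :
    rel J i ≤ completion J σ i :=
  le_csInf (hσ.2 i) fun _ ht => (lt_of_done hσ hw ht).le

theorem le_done_of_completion_lt {i : Fin J.length} (hσ : σ.Feasible J) {u : ℝ}
    (hu : completion J σ i < u) : ENNReal.ofReal (wrk J i) ≤ σ.done i u := by
  obtain ⟨t, ht, htu⟩ := exists_lt_of_csInf_lt (hσ.2 i) hu
  exact le_trans ht (done_mono σ i htu.le)

theorem le_completion (hσ : σ.Feasible J) {i : Fin J.length} {u : ℝ}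
    (hu : 0 ≤ u) (hj : u ∈ σ.at_ i) : u ≤ completion J σ i := by
  by_contra hc
  exact absurd (hσ.1 u hu i hj).2 (not_lt.2 (le_done_of_completion_lt hσ (not_le.1 hc)))

theorem completion_le (hσ : σ.Feasible J) {i : Fin J.length} (hw : 0 < wrk J i) {t : ℝ}
    (ht : ENNReal.ofReal (wrk J i) ≤ σ.done i t) : completion J σ i ≤ t :=
  csInf_le (bddBelow hσ hw) ht

theorem work_le (hσ : σ.Feasible J) (i : Fin J.length) :
    ENNReal.ofReal (wrk J i) ≤ ∫⁻ u in Ici 0 ∩ σ.at_ i, ENNReal.ofReal (σ.speed u) := by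
  obtain ⟨t, ht⟩ := hσ.2 i
  refine ht.trans ?_
  rw [done_eq]
  exact lintegral_mono_set (inter_subset_inter_left _ Ico_subset_Ici_self)

/-- the energy used for the job `i` -/
noncomputable def energyOf {n : ℕ} (σ : Schedule n) (α : ℝ) (i : Fin n) : ℝ≥0∞ :=
  ∫⁻ u in Ici 0 ∩ σ.at_ i, ENNReal.ofReal (σ.speed u ^ α)

theorem sum_energyOf_le {n : ℕ} (σ : Schedule n) (α : ℝ) :
    ∑ i, σ.energyOf α i ≤ σ.energy α := by
  unfold energyOf energy
  have h1 : ∑ i, ∫⁻ u in Ici 0 ∩ σ.at_ i, ENNReal.ofReal (σ.speed u ^ α) =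
      ∫⁻ u in ⋃ i, (Ici 0 ∩ σ.at_ i), ENNReal.ofReal (σ.speed u ^ α) := by
    rw [lintegral_iUnion]
    · rw [tsum_fintype]
    · intro i
      exact measurableSet_Ici.inter (σ.measurableSet_at i)
    · intro i j hij
      rw [Function.onFun, Set.disjoint_left]
      rintro u ⟨_, h1⟩ ⟨_, h2⟩
      have h1' : σ.job u = some i := h1
      have h2' : σ.job u = some j := h2
      rw [h1'] at h2'
      exact hij (Option.some.inj h2')
  rw [h1]
  exact lintegral_mono_set (iUnion_subset fun i => inter_subset_left)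

theorem measurable_rpow_speed {n : ℕ} (σ : Schedule n) (α : ℝ) :
    Measurable fun u => ENNReal.ofReal (σ.speed u ^ α) :=
  (σ.measurable_speed.pow_const α).ennreal_ofReal

theorem lintegral_ind {n : ℕ} (σ : Schedule n) (i : Fin n) (f : ℝ → ℝ≥0∞) :
    ∫⁻ u in Ici 0, (σ.at_ i).indicator f u = ∫⁻ u in Ici 0 ∩ σ.at_ i, f u := by
  rw [lintegral_indicator (σ.measurableSet_at i), Measure.restrict_restrict (σ.measurableSet_at i),
    inter_comm]

theorem lintegral_Icc {x y : ℝ} (hx : 0 ≤ x) :
    ∫⁻ u in Ici 0, (Icc x y).indicator (fun _ => (1 : ℝ≥0∞)) u = ENNReal.ofReal (y - x) := by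
  rw [lintegral_indicator measurableSet_Icc, Measure.restrict_restrict measurableSet_Icc]
  have : Icc x y ∩ Ici 0 = Icc x y := by
    rw [inter_eq_left]
    intro u hu
    exact hx.trans hu.1
  rw [this]
  simp

/-- The pointwise inequality integrated. -/
theorem cost_le (hσ : σ.Feasible J) {b s : Fin J.length} (hb : 0 < wrk J b) (hs : 0 < wrk J s)
    (hrb : 0 ≤ rel J b) (hrs : 0 ≤ rel J s)
    {α y y' μ r : ℝ} (hy : 0 ≤ y) (hy' : 0 ≤ y') (hμ : 0 ≤ μ) (hr : 0 ≤ r)
    (h : ∀ u, 0 ≤ u →
      (σ.at_ b).indicator (fun u => ENNReal.ofReal (y * σ.speed u)) u +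
        (σ.at_ s).indicator (fun u => ENNReal.ofReal (y' * σ.speed u)) u ≤
      (Icc (rel J b) (completion J σ b)).indicator (fun _ => 1) u +
        (Icc (rel J s) (completion J σ s)).indicator (fun _ => 1) u +
        (Icc (rel J b) (rel J b + r)).indicator (fun _ => 1) u +
        ((σ.at_ b).indicator (fun u => ENNReal.ofReal (μ * σ.speed u ^ α)) u +
          (σ.at_ s).indicator (fun u => ENNReal.ofReal (μ * σ.speed u ^ α)) u)) :
    ENNReal.ofReal (y * wrk J b + y' * wrk J s) ≤
      ENNReal.ofReal ((completion J σ b - rel J b) + (completion J σ s - rel J s) + r) +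
        ENNReal.ofReal μ * (σ.energyOf α b + σ.energyOf α s) := by
  have hcb := rel_le_completion hσ hb
  have hcs := rel_le_completion hσ hs
  have hm1 : Measurable fun u => ENNReal.ofReal (σ.speed u) := σ.measurable_speed.ennreal_ofReal
  have hm2 := σ.measurable_rpow_speed α
  have key : ∀ (y : ℝ), 0 ≤ y → ∀ i, ENNReal.ofReal y * ENNReal.ofReal (wrk J i) ≤
      ∫⁻ u in Ici 0, (σ.at_ i).indicator (fun u => ENNReal.ofReal (y * σ.speed u)) u := by
    intro y hy i
    rw [lintegral_ind]
    have h1 : ∀ u, ENNReal.ofReal (y * σ.speed u) =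
        ENNReal.ofReal y * ENNReal.ofReal (σ.speed u) := fun u => ENNReal.ofReal_mul hy
    simp only [h1]
    rw [lintegral_const_mul _ hm1]
    gcongr
    exact work_le hσ i
  have key2 : ∀ i, ∫⁻ u in Ici 0, (σ.at_ i).indicator
      (fun u => ENNReal.ofReal (μ * σ.speed u ^ α)) u = ENNReal.ofReal μ * σ.energyOf α i := by
    intro i
    rw [lintegral_ind]
    have h1 : ∀ u, ENNReal.ofReal (μ * σ.speed u ^ α) =
        ENNReal.ofReal μ * ENNReal.ofReal (σ.speed u ^ α) := fun u => ENNReal.ofReal_mul hμ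
    simp only [h1]
    rw [lintegral_const_mul _ hm2]
    rfl
  have hmi : ∀ (i : Fin J.length) (f : ℝ → ℝ≥0∞), Measurable f →
      Measurable ((σ.at_ i).indicator f) := fun i f hf => hf.indicator (σ.measurableSet_at i)
  have hf1 : Measurable fun u => ENNReal.ofReal (y * σ.speed u) :=
    (σ.measurable_speed.const_mul y).ennreal_ofReal
  have hf2 : Measurable fun u => ENNReal.ofReal (μ * σ.speed u ^ α) :=
    ((σ.measurable_speed.pow_const α).const_mul μ).ennreal_ofReal
  have hI : ∀ x y : ℝ, Measurable ((Icc x y).indicator (fun _ => (1 : ℝ≥0∞))) := fun x y =>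
    measurable_const.indicator measurableSet_Icc
  have hg : Measurable fun u => (σ.at_ b).indicator (fun u => ENNReal.ofReal (μ * σ.speed u ^ α)) u +
      (σ.at_ s).indicator (fun u => ENNReal.ofReal (μ * σ.speed u ^ α)) u :=
    (hmi b _ hf2).add (hmi s _ hf2)
  calc ENNReal.ofReal (y * wrk J b + y' * wrk J s)
      = ENNReal.ofReal y * ENNReal.ofReal (wrk J b) +
          ENNReal.ofReal y' * ENNReal.ofReal (wrk J s) := by
        rw [ENNReal.ofReal_add (by positivity) (by positivity), ENNReal.ofReal_mul hy,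
          ENNReal.ofReal_mul hy']
    _ ≤ (∫⁻ u in Ici 0, (σ.at_ b).indicator (fun u => ENNReal.ofReal (y * σ.speed u)) u) +
        ∫⁻ u in Ici 0, (σ.at_ s).indicator (fun u => ENNReal.ofReal (y' * σ.speed u)) u :=
        add_le_add (key y hy b) (key y' hy' s)
    _ = ∫⁻ u in Ici 0, ((σ.at_ b).indicator (fun u => ENNReal.ofReal (y * σ.speed u)) u +
        (σ.at_ s).indicator (fun u => ENNReal.ofReal (y' * σ.speed u)) u) := by
        rw [lintegral_add_left (hmi b _ hf1)]
    _ ≤ ∫⁻ u in Ici 0, ((Icc (rel J b) (completion J σ b)).indicator (fun _ => 1) u +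
        (Icc (rel J s) (completion J σ s)).indicator (fun _ => 1) u +
        (Icc (rel J b) (rel J b + r)).indicator (fun _ => 1) u +
        ((σ.at_ b).indicator (fun u => ENNReal.ofReal (μ * σ.speed u ^ α)) u +
          (σ.at_ s).indicator (fun u => ENNReal.ofReal (μ * σ.speed u ^ α)) u)) := by
        refine setLIntegral_mono' measurableSet_Ici fun u hu => h u hu
    _ = ENNReal.ofReal ((completion J σ b - rel J b) + (completion J σ s - rel J s) + r) +
        ENNReal.ofReal μ * (σ.energyOf α b + σ.energyOf α s) := by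
        rw [lintegral_add_right _ hg,
          lintegral_add_right _ (hmi s _ hf2), lintegral_add_right _ (hI _ _),
          lintegral_add_right _ (hI _ _), lintegral_Icc hrb, lintegral_Icc hrs,
          lintegral_Icc hrb, key2, key2, mul_add, add_sub_cancel_left,
          ← ENNReal.ofReal_add (by linarith) (by linarith), ← ENNReal.ofReal_add (by linarith) hr]

end Schedule

end Pool.Agent.T6.H89.Speed
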