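import Pool.Agent.T6.H89.Speed.Alg
import Pool.Agent.ER.Rat
import Pool.Agent.H569R2.Approx

set_option autoImplicit false

/-!
# Total flow time under an energy budget is NP-hard
-/

namespace Pool.Agent.T6.H89.Speed

open Pool.Agent.NPC Pool.Agent.NPC.R671.SS
open scoped ENNReal

theorem natJobs_jobsN (B1 B2 k M : ℕ) (I : List ℕ × ℕ) :
    natJobs (jobsN B1 B2 k M I) = jobs B1 B2 k M I := rfl

theorem valid_jobs {B1 B2 k M : ℕ} {I : List ℕ × ℕ} (hB1 : 0 < B1) (hM : 0 < M)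
    (hpos : ∀ a ∈ I.1, 0 < a) : Valid (jobs B1 B2 k M I) := by
  intro j hj
  obtain ⟨i, hi, rfl⟩ := List.getElem_of_mem hj
  rw [jobs_getElem]
  have hi' : i / 2 < I.1.length := by
    rw [jobs_length] at hi
    omega
  have h1 : 0 < I.1.getD (i / 2) 0 := by
    rw [List.getD_eq_getElem _ _ hi']
    exact hpos _ (List.getElem_mem _)
  refine ⟨by positivity, ?_⟩
  have h2 : 0 < (njob B1 B2 k M I i).2 := by
    unfold njob
    split_ifs
    · exact Nat.mul_pos h1 (Nat.mul_pos hM (by omega))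
    · exact Nat.mul_pos h1 (Nat.mul_pos hM (by omega))
  have h3 : (0 : ℚ) < ((njob B1 B2 k M I i).2 : ℚ) := by exact_mod_cast h2
  exact h3

theorem wrk_pos {J : Jobs} (hJ : Valid J) (i : Fin J.length) : 0 < wrk J i := by
  unfold wrk
  exact_mod_cast (hJ _ (List.getElem_mem i.2)).2

theorem flow_nonneg {J : Jobs} (hJ : Valid J) {σ : Schedule J.length} (hσ : σ.Feasible J) :
    0 ≤ σ.flow J :=
  Finset.sum_nonneg fun i _ => by
    have := Schedule.rel_le_completion hσ (wrk_pos hJ i)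
    linarith

theorem OPT_le {J : Jobs} (hJ : Valid J) {α E : ℝ} {σ : Schedule J.length} (hσ : σ.Feasible J)
    (hE : σ.energy α ≤ ENNReal.ofReal E) : OPT α J E ≤ σ.flow J := by
  refine csInf_le ⟨0, ?_⟩ ⟨σ, hσ, hE, rfl⟩
  rintro f ⟨τ, hτ, _, rfl⟩
  exact flow_nonneg hJ hτ

theorem subsetSum_of_pat {I : List ℕ × ℕ} {P : Finset (Fin I.1.length)}
    (h : ∑ j ∈ P, (I.1[j] : ℝ) = I.2) : SubsetSum I := by
  obtain ⟨s, h1, h2⟩ := exists_sublist_of_finset I.1 P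
  refine ⟨s, h1, ?_⟩
  rw [h] at h2
  exact_mod_cast h2

/-- numerator and denominator of the conjugate exponent -/
theorem exists_conj (α : ℚ) (hα : 1 < α) : ∃ (β : ℝ) (B1 B2 : ℕ),
    (α : ℝ).HolderConjugate β ∧ 0 < B2 ∧ B2 < B1 ∧ β * B2 = B1 := by
  set b : ℚ := α / (α - 1) with hb
  have h1 : 0 < α - 1 := by linarith
  have hb1 : 1 < b := by
    rw [hb, lt_div_iff₀ h1]
    linarith
  have hnum : 0 < b.num := Rat.num_pos.2 (by linarith)
  have hcast : ((b.num.toNat : ℕ) : ℚ) = b.num := by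
    have : ((b.num.toNat : ℕ) : ℤ) = b.num := Int.toNat_of_nonneg hnum.le
    exact_mod_cast this
  have hmul : b * b.den = (b.num.toNat : ℕ) := by
    rw [hcast]
    exact Rat.mul_den_eq_num b
  refine ⟨(b : ℝ), b.num.toNat, b.den, ?_, b.den_pos, ?_, ?_⟩
  · have h2 : (b : ℝ) = Real.conjExponent (α : ℝ) := by
      rw [hb]
      unfold Real.conjExponent
      push_cast
      rfl
    rw [h2]
    exact Real.HolderConjugate.conjExponent (by exact_mod_cast hα)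
  · have h2 : (b.den : ℚ) < (b.num.toNat : ℕ) := by
      rw [← hmul]
      have h3 : (0 : ℚ) < b.den := by exact_mod_cast b.den_pos
      nlinarith
    exact_mod_cast h2
  · exact_mod_cast hmul

/-- **NP-hardness with a gap.** -/
theorem hard (α : ℚ) (hα : 1 < α) {L : Set (List Bool)} (hL : InNP L) :
    ∃ (N : List Bool → List (ℕ × ℕ)) (E v : List Bool → ℕ),
      PolyTime (fun x => bits (N x, E x, v x)) ∧ ∀ x, Valid (natJobs (N x)) ∧ 0 < E x ∧
        (∃ σ : Schedule (natJobs (N x)).length, σ.Feasible (natJobs (N x)) ∧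
          σ.energy α ≤ ENNReal.ofReal (E x : ℝ)) ∧
        (x ∈ L → OPT α (natJobs (N x)) (E x) ≤ v x) ∧
        (x ∉ L → (v x : ℝ) + 2 ≤ OPT α (natJobs (N x)) (E x)) := by
  obtain ⟨β, B1, B2, hc, hB2, hB, hβ⟩ := exists_conj α hα
  obtain ⟨C1, hC1⟩ := facts hc hB2 hB hβ
  obtain ⟨f, hf, hfn, hfL⟩ := hardPr_SubsetSum L hL
  have hB1 : 0 < B1 := by omega
  have hkM := poly_kM B1 B2 C1 hB
  refine ⟨fun x => jobsN B1 B2 (kM B1 B2 C1 (f x)).1 (kM B1 B2 C1 (f x)).2 (f x),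
    fun x => budget B1 B2 (kM B1 B2 C1 (f x)).1 (kM B1 B2 C1 (f x)).2 (f x),
    fun x => bound B1 B2 (kM B1 B2 C1 (f x)).1 (kM B1 B2 C1 (f x)).2 (f x), ?_, fun x => ?_⟩
  · have h1 : NPC.Poly (fun I : List ℕ × ℕ =>
        (jobsN B1 B2 (kM B1 B2 C1 I).1 (kM B1 B2 C1 I).2 I,
          budget B1 B2 (kM B1 B2 C1 I).1 (kM B1 B2 C1 I).2 I,
          bound B1 B2 (kM B1 B2 C1 I).1 (kM B1 B2 C1 I).2 I)) :=
      Poly.pair (poly_jobsN B1 B2 (Poly.fst hkM) (Poly.snd hkM) Poly.id)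
        (Poly.pair (poly_budget B1 B2 (Poly.fst hkM) (Poly.snd hkM) Poly.id)
          (poly_bound B1 B2 (Poly.fst hkM) (Poly.snd hkM) Poly.id))
    exact PC.toPolyTime_bits h1 f hf
  · obtain ⟨hk, hM, hpos, h1, h2, h3, h4⟩ := hC1 (f x) (hfn x)
    have hV := valid_jobs (B2 := B2) (k := (kM B1 B2 C1 (f x)).1) hB1 hM hpos
    refine ⟨hV, h1, h2, fun hxL => ?_, fun hxL => ?_⟩
    · obtain ⟨σ, h5, h6, h7⟩ := h3 ((hfL x).1 hxL)
      exact (OPT_le hV h5 h6).trans h7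
    · obtain ⟨σ, h5, h6⟩ := h2
      refine le_csInf ⟨_, σ, h5, h6, rfl⟩ ?_
      rintro _ ⟨τ, hτ, hτE, rfl⟩
      by_contra hcon
      exact hxL ((hfL x).2 (subsetSum_of_pat (h4 τ hτ hτE (not_le.1 hcon))))

/-- **An efficient algorithm implies `P = NP`.** -/
theorem collapse (α : ℚ) (hα : 1 < α) (h : EfficientAlgorithm α) {L : Set (List Bool)}
    (hL : InNP L) : InP L := by
  obtain ⟨β, B1, B2, hc, hB2, hB, hβ⟩ := exists_conj α hα
  obtain ⟨C1, hC1⟩ := facts hc hB2 hB hβ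
  obtain ⟨f, hf, hfn, hfL⟩ := hardPr_SubsetSum L hL
  obtain ⟨F, hF, hFs⟩ := h
  have hB1 : 0 < B1 := by omega
  have hkM := poly_kM B1 B2 C1 hB
  let inst : List ℕ × ℕ → Jobs × ℚ × ℚ := fun I =>
    (jobs B1 B2 (kM B1 B2 C1 I).1 (kM B1 B2 C1 I).2 I,
      ((budget B1 B2 (kM B1 B2 C1 I).1 (kM B1 B2 C1 I).2 I : ℕ) : ℚ), 1)
  let d : List ℕ × ℕ → Bool := fun I =>
    (unbits (List (ℕ × ℚ × ℚ)) (F (bits (inst I)))).any fun S => decide (psum I.1 S = I.2)
  have hinst : NPC.Poly inst :=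
    Poly.pair (poly_jobs B1 B2 (Poly.fst hkM) (Poly.snd hkM) Poly.id)
      (Poly.pair (natCast_rat (poly_budget B1 B2 (Poly.fst hkM) (Poly.snd hkM) Poly.id))
        (NPC.Poly.const 1))
  have hd : NPC.Poly d := by
    refine Poly.optAny_fp (o := fun I => unbits (List (ℕ × ℚ × ℚ)) (F (bits (inst I))))
      (h := fun I S => decide (psum I.1 S = I.2)) ?_ ?_
    · exact poly_unbits.comp ((Pool.Agent.H569R2.poly_of_polyTime hF).comp
        (Pool.Agent.H569R2.poly_bits.comp hinst))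
    · exact Poly.decide_eq (poly_psum (Poly.fst (Poly.fst Poly.id)) (Poly.snd Poly.id))
        (Poly.snd (Poly.fst Poly.id))
  refine ⟨fun x => [d (f x)], PC.toPolyTime (PC.comp (g := fun b => [b])
    (f := fun x => d (f x)) PC.rawBool (PC.comp (g := d) (f := f) hd hf)), fun x => ?_⟩
  obtain ⟨hk, hM, hpos, h1, h2, h3, h4⟩ := hC1 (f x) (hfn x)
  have hV := valid_jobs (B2 := B2) (k := (kM B1 B2 C1 (f x)).1) hB1 hM hpos
  have hdx : [d (f x)] = [true] ↔ d (f x) = true := by simp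
  rw [hdx, hfL x]
  obtain ⟨S, σ, hS, hdesc, hσ, hσE, hσF⟩ := hFs
    (jobs B1 B2 (kM B1 B2 C1 (f x)).1 (kM B1 B2 C1 (f x)).2 (f x))
    ((budget B1 B2 (kM B1 B2 C1 (f x)).1 (kM B1 B2 C1 (f x)).2 (f x) : ℕ) : ℚ) 1 hV
    (by exact_mod_cast h1) one_pos
  have hcast : (((budget B1 B2 (kM B1 B2 C1 (f x)).1 (kM B1 B2 C1 (f x)).2 (f x) : ℕ) : ℚ) : ℝ) =
      (budget B1 B2 (kM B1 B2 C1 (f x)).1 (kM B1 B2 C1 (f x)).2 (f x) : ℕ) := by
    push_cast
    rfl
  rw [hcast] at hσE hσF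
  have hdS : d (f x) = true ↔ psum (f x).1 S = (f x).2 := by
    simp only [d, inst]
    rw [hS, unbits_bits]
    simp
  rw [hdS]
  constructor
  · intro hss
    obtain ⟨τ, h5, h6, h7⟩ := h3 hss
    have h8 := OPT_le hV h5 h6
    have h9 := h4 σ hσ hσE (by
      push_cast at hσF
      linarith)
    rw [← psum_eq_pat hB1 hM hk hpos hσ hdesc] at h9
    exact_mod_cast h9
  · intro hps
    obtain ⟨s, h5, h6⟩ := exists_sublist_psum (f x).1 S
    exact ⟨s, h5, h6.trans hps⟩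

/-- comparison of a rational number with a natural number -/
theorem poly_rat_le {ι : Type} [TEnc ι] {q : ι → ℚ} {c : ι → ℕ} (hq : NPC.Poly q)
    (hc : NPC.Poly c) : NPC.Poly (fun a => decide (q a ≤ (c a : ℚ))) := by
  have h1 : NPC.Poly (fun a => ((q a).num, (q a).den)) :=
    Poly.of_toT ((Poly.toT' hq).congr fun a => rfl)
  have h2 : NPC.Poly (fun a => (decide ((q a).num < 0), (q a).num.natAbs)) :=
    Poly.of_toT ((Poly.toT' (Poly.fst h1)).congr fun a => rfl)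
  have h3 : NPC.Poly (fun a => decide ((q a).num < 0) ||
      decide ((q a).num.natAbs ≤ c a * (q a).den)) :=
    Poly.or (Poly.fst h2) (Poly.decide_le (Poly.snd h2) (Poly.mul hc (Poly.snd h1)))
  refine h3.congr fun a => ?_
  have h4 : q a ≤ (c a : ℚ) ↔ (q a).num ≤ (c a : ℤ) * ((q a).den : ℤ) := by
    rw [Rat.le_iff]
    simp
  rw [Bool.eq_iff_iff]
  simp only [Bool.or_eq_true, decide_eq_true_eq]
  rw [h4]
  constructor
  · rintro (h | h)
    · have : 0 ≤ (c a : ℤ) * ((q a).den : ℤ) := by positivity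
      omega
    · have h5 : ((q a).num.natAbs : ℤ) ≤ (c a : ℤ) * ((q a).den : ℤ) := by exact_mod_cast h
      have := Int.le_natAbs (a := (q a).num)
      omega
  · intro h
    by_cases h5 : (q a).num < 0
    · exact Or.inl h5
    · right
      have h6 : ((q a).num.natAbs : ℤ) = (q a).num := Int.natAbs_of_nonneg (by omega)
      have h7 : ((q a).num.natAbs : ℤ) ≤ ((c a * (q a).den : ℕ) : ℤ) := by
        rw [h6]
        push_cast
        exact h
      exact_mod_cast h7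

/-- **Approximation of the optimum with an additive error less than `1` implies `P = NP`.** -/
theorem collapse_value (α : ℚ) (hα : 1 < α) (h : EfficientValue α) {L : Set (List Bool)}
    (hL : InNP L) : InP L := by
  obtain ⟨β, B1, B2, hc, hB2, hB, hβ⟩ := exists_conj α hα
  obtain ⟨C1, hC1⟩ := facts hc hB2 hB hβ
  obtain ⟨f, hf, hfn, hfL⟩ := hardPr_SubsetSum L hL
  obtain ⟨F, hF, hFs⟩ := h
  have hB1 : 0 < B1 := by omega
  have hkM := poly_kM B1 B2 C1 hB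
  let inst : List ℕ × ℕ → Jobs × ℚ := fun I =>
    (jobs B1 B2 (kM B1 B2 C1 I).1 (kM B1 B2 C1 I).2 I,
      ((budget B1 B2 (kM B1 B2 C1 I).1 (kM B1 B2 C1 I).2 I : ℕ) : ℚ))
  let bd : List ℕ × ℕ → ℕ := fun I => bound B1 B2 (kM B1 B2 C1 I).1 (kM B1 B2 C1 I).2 I + 1
  let d : List ℕ × ℕ → Bool := fun I =>
    (unbits ℚ (F (bits (inst I)))).any fun q => decide (q ≤ (bd I : ℚ))
  have hinst : NPC.Poly inst :=
    Poly.pair (poly_jobs B1 B2 (Poly.fst hkM) (Poly.snd hkM) Poly.id)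
      (natCast_rat (poly_budget B1 B2 (Poly.fst hkM) (Poly.snd hkM) Poly.id))
  have hbd : NPC.Poly bd :=
    Poly.add (poly_bound B1 B2 (Poly.fst hkM) (Poly.snd hkM) Poly.id) (NPC.Poly.const 1)
  have hd : NPC.Poly d := by
    refine Poly.optAny_fp (o := fun I => unbits ℚ (F (bits (inst I))))
      (h := fun I q => decide (q ≤ (bd I : ℚ))) ?_ ?_
    · exact poly_unbits.comp ((Pool.Agent.H569R2.poly_of_polyTime hF).comp
        (Pool.Agent.H569R2.poly_bits.comp hinst))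
    · exact poly_rat_le (Poly.snd Poly.id) (hbd.comp (Poly.fst Poly.id))
  refine ⟨fun x => [d (f x)], PC.toPolyTime (PC.comp (g := fun b => [b])
    (f := fun x => d (f x)) PC.rawBool (PC.comp (g := d) (f := f) hd hf)), fun x => ?_⟩
  obtain ⟨hk, hM, hpos, h1, h2, h3, h4⟩ := hC1 (f x) (hfn x)
  have hV := valid_jobs (B2 := B2) (k := (kM B1 B2 C1 (f x)).1) hB1 hM hpos
  have hdx : [d (f x)] = [true] ↔ d (f x) = true := by simp
  rw [hdx, hfL x]
  obtain ⟨q, hq, hqO⟩ := hFs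
    (jobs B1 B2 (kM B1 B2 C1 (f x)).1 (kM B1 B2 C1 (f x)).2 (f x))
    ((budget B1 B2 (kM B1 B2 C1 (f x)).1 (kM B1 B2 C1 (f x)).2 (f x) : ℕ) : ℚ) hV
    (by exact_mod_cast h1)
  have hcast : (((budget B1 B2 (kM B1 B2 C1 (f x)).1 (kM B1 B2 C1 (f x)).2 (f x) : ℕ) : ℚ) : ℝ) =
      (budget B1 B2 (kM B1 B2 C1 (f x)).1 (kM B1 B2 C1 (f x)).2 (f x) : ℕ) := by
    push_cast
    rfl
  rw [hcast, abs_lt] at hqO
  have hdS : d (f x) = true ↔ (q : ℝ) ≤
      (bound B1 B2 (kM B1 B2 C1 (f x)).1 (kM B1 B2 C1 (f x)).2 (f x) : ℝ) + 1 := by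
    simp only [d, inst]
    rw [hq, unbits_bits]
    simp only [Option.any_some, decide_eq_true_eq, bd]
    constructor
    · intro h
      exact_mod_cast h
    · intro h
      exact_mod_cast h
  rw [hdS]
  constructor
  · intro hss
    obtain ⟨τ, h5, h6, h7⟩ := h3 hss
    have h8 := OPT_le hV h5 h6
    linarith [hqO.2]
  · intro hle
    by_contra hss
    obtain ⟨σ, h5, h6⟩ := h2
    have h9 : (bound B1 B2 (kM B1 B2 C1 (f x)).1 (kM B1 B2 C1 (f x)).2 (f x) : ℝ) + 2 ≤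
        OPT α (jobs B1 B2 (kM B1 B2 C1 (f x)).1 (kM B1 B2 C1 (f x)).2 (f x))
          (budget B1 B2 (kM B1 B2 C1 (f x)).1 (kM B1 B2 C1 (f x)).2 (f x) : ℕ) := by
      refine le_csInf ⟨_, σ, h5, h6, rfl⟩ ?_
      rintro _ ⟨τ, hτ, hτE, rfl⟩
      by_contra hcon
      exact hss (subsetSum_of_pat (h4 τ hτ hτE (not_le.1 hcon)))
    linarith [hqO.1]

end Pool.Agent.T6.H89.Speed
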