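import Pool.Agent.T6.H89.Speed.Root
import Pool.Agent.T6.H89.Speed.GadUp

set_option autoImplicit false

/-!
# The reduction from Subset Sum
-/

namespace Pool.Agent.T6.H89.Speed

open Pool.Agent.NPC

/-- the number of bits of precision -/
def prec (C1 : ℕ) (I : List ℕ × ℕ) : ℕ := C1 + 2 * I.1.sum.bits.length

/-- the pair `(k, M)` with `M = 2 ^ prec` and `k` the upper approximation of `2 ^ (B2 / B1) M` -/
def kM (B1 B2 C1 : ℕ) (I : List ℕ × ℕ) : ℕ × ℕ :=
  (((rstep B1 B2)^[prec C1 I] (1, 1)).1 + 1, ((rstep B1 B2)^[prec C1 I] (1, 1)).2)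

/-- the release time and the work of the job with the number `i` -/
def njob (B1 B2 k M : ℕ) (I : List ℕ × ℕ) (i : ℕ) : ℕ × ℕ :=
  if i % 2 = 0 then
    (i / 2 * (M * (4 * B1 + B2) * I.1.sum), I.1.getD (i / 2) 0 * (M * (2 * B1 + B2)))
  else
    (i / 2 * (M * (4 * B1 + B2) * I.1.sum) + I.1.getD (i / 2) 0 * (B1 * (k - M)),
      I.1.getD (i / 2) 0 * (M * (2 * B1)))

/-- the jobs -/
def jobsN (B1 B2 k M : ℕ) (I : List ℕ × ℕ) : List (ℕ × ℕ) :=
  (List.range (I.1.length * 2)).map (njob B1 B2 k M I)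

/-- the jobs -/
def jobs (B1 B2 k M : ℕ) (I : List ℕ × ℕ) : Jobs :=
  (jobsN B1 B2 k M I).map fun p => ((p.1 : ℚ), (p.2 : ℚ))

/-- the energy budget -/
def budget (B1 B2 k M : ℕ) (I : List ℕ × ℕ) : ℕ :=
  I.2 * (k * (2 * B1 + B2) + M * (2 * B1)) +
    (I.1.sum - I.2) * (k * (2 * B1) + M * (2 * B1 + B2))

/-- the bound for the flow time -/
def bound (B1 B2 k M : ℕ) (I : List ℕ × ℕ) : ℕ := budget B1 B2 k M I - I.2 * (B1 * (k - M))

section Poly

variable {α : Type} [TEnc α]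

theorem natCast_rat {f : α → ℕ} (hf : Poly f) : Poly (fun a => ((f a : ℕ) : ℚ)) :=
  Poly.of_toT ((Poly.toT' (Poly.pair (Poly.natCast_int hf) (NPC.Poly.const 1))).congr fun a => by
    change toT (((f a : ℕ) : ℤ), 1) = toT ((((f a : ℕ) : ℚ)).num, (((f a : ℕ) : ℚ)).den)
    simp)

theorem uPoly_prec (C1 : ℕ) : UPoly (prec C1) :=
  UPoly.add (UPoly.const _) (UPoly.mul (UPoly.const _)
    (UPoly.length (Poly.natBits (Poly.sum (Poly.fst Poly.id)))))

theorem poly_kM (B1 B2 C1 : ℕ) (hB : B2 < B1) : Poly (kM B1 B2 C1) := by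
  have h := poly_root B1 B2 hB (uPoly_prec C1)
  exact Poly.pair (Poly.add (Poly.fst h) (NPC.Poly.const 1)) (Poly.snd h)

theorem poly_jobsN (B1 B2 : ℕ) {k M : α → ℕ} {I : α → List ℕ × ℕ} (hk : Poly k) (hM : Poly M)
    (hI : Poly I) : Poly (fun a => jobsN B1 B2 (k a) (M a) (I a)) := by
  unfold jobsN
  have h1 : Poly (fun a => List.range ((I a).1.length * 2)) :=
    (UPoly.mul (UPoly.length (Poly.fst hI)) (UPoly.const 2)).range
  refine NPC.Poly.map (F := fun a i => njob B1 B2 (k a) (M a) (I a) i) h1 ?_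
  unfold njob
  have hI' : Poly (fun p : α × ℕ => (I p.1)) := hI.comp (Poly.fst Poly.id)
  have hk' : Poly (fun p : α × ℕ => (k p.1)) := hk.comp (Poly.fst Poly.id)
  have hM' : Poly (fun p : α × ℕ => (M p.1)) := hM.comp (Poly.fst Poly.id)
  fun_prop

theorem poly_jobs (B1 B2 : ℕ) {k M : α → ℕ} {I : α → List ℕ × ℕ} (hk : Poly k) (hM : Poly M)
    (hI : Poly I) : Poly (fun a => jobs B1 B2 (k a) (M a) (I a)) := by
  unfold jobs
  refine NPC.Poly.map (F := fun (_ : α) (p : ℕ × ℕ) => ((p.1 : ℚ), (p.2 : ℚ)))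
    (poly_jobsN B1 B2 hk hM hI) ?_
  exact Poly.pair (natCast_rat (Poly.fst (Poly.snd Poly.id)))
    (natCast_rat (Poly.snd (Poly.snd Poly.id)))

theorem poly_budget (B1 B2 : ℕ) {k M : α → ℕ} {I : α → List ℕ × ℕ} (hk : Poly k) (hM : Poly M)
    (hI : Poly I) : Poly (fun a => budget B1 B2 (k a) (M a) (I a)) := by
  unfold budget
  fun_prop

theorem poly_bound (B1 B2 : ℕ) {k M : α → ℕ} {I : α → List ℕ × ℕ} (hk : Poly k) (hM : Poly M)
    (hI : Poly I) : Poly (fun a => bound B1 B2 (k a) (M a) (I a)) := by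
  have := poly_budget B1 B2 hk hM hI
  unfold bound
  fun_prop

end Poly

section Gad

variable (B1 B2 k M : ℕ) (I : List ℕ × ℕ)

theorem jobsN_length : (jobsN B1 B2 k M I).length = I.1.length * 2 := by
  simp [jobsN]

theorem jobs_length : (jobs B1 B2 k M I).length = I.1.length * 2 := by
  simp [jobs, jobsN]

/-- the numbering of the jobs -/
def numb : Fin I.1.length × Fin 2 ≃ Fin (jobs B1 B2 k M I).length :=
  finProdFinEquiv.trans (finCongr (jobs_length B1 B2 k M I).symm)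

theorem numb_val (j : Fin I.1.length) (y : Fin 2) :
    ((numb B1 B2 k M I (j, y) : Fin _) : ℕ) = y + 2 * j := by
  simp [numb, finProdFinEquiv]

theorem jobs_getElem (i : ℕ) (h : i < (jobs B1 B2 k M I).length) :
    (jobs B1 B2 k M I)[i] =
      (((njob B1 B2 k M I i).1 : ℚ), ((njob B1 B2 k M I i).2 : ℚ)) := by
  simp [jobs, jobsN]

theorem rel_eq (i : Fin (jobs B1 B2 k M I).length) :
    rel (jobs B1 B2 k M I) i = ((njob B1 B2 k M I i).1 : ℝ) := by
  unfold rel
  rw [Fin.getElem_fin, jobs_getElem]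
  push_cast
  rfl

theorem wrk_eq (i : Fin (jobs B1 B2 k M I).length) :
    wrk (jobs B1 B2 k M I) i = ((njob B1 B2 k M I i).2 : ℝ) := by
  unfold wrk
  rw [Fin.getElem_fin, jobs_getElem]
  push_cast
  rfl

/-- The jobs form a system of gadgets. -/
def gadOf (hB1 : 0 < B1) (hM : 0 < M) (hkM : M ≤ k) (hI : ∀ a ∈ I.1, 0 < a) :
    Gad (jobs B1 B2 k M I) I.1.length (2 * B1 + B2) (2 * B1) (B1 * ((k : ℝ) - M)) M
      (M * (4 * B1 + B2) * I.1.sum) (fun j => (I.1[j] : ℝ)) where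
  e := numb B1 B2 k M I
  rb j := by
    rw [rel_eq, numb_val]
    simp [njob]
  rs j := by
    rw [rel_eq, numb_val]
    have h1 : (((1 : Fin 2) : ℕ) + 2 * (j : ℕ)) % 2 = 1 := by simp
    have h2 : (((1 : Fin 2) : ℕ) + 2 * (j : ℕ)) / 2 = j := by simp; omega
    simp only [njob, h1, h2, one_ne_zero, if_false]
    push_cast [Nat.cast_sub hkM]
    simp
  wb j := by
    rw [wrk_eq, numb_val]
    simp [njob]
  ws j := by
    rw [wrk_eq, numb_val]
    have h1 : (((1 : Fin 2) : ℕ) + 2 * (j : ℕ)) % 2 = 1 := by simp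
    have h2 : (((1 : Fin 2) : ℕ) + 2 * (j : ℕ)) / 2 = j := by simp; omega
    simp only [njob, h1, h2, one_ne_zero, if_false]
    simp
  hW := by positivity
  hw := by positivity
  hg := by
    have : (M : ℝ) ≤ k := by exact_mod_cast hkM
    have : 0 ≤ (k : ℝ) - M := by linarith
    positivity
  hM := by exact_mod_cast hM
  ha j := by exact_mod_cast hI _ (List.getElem_mem _)
  hD := by positivity

end Gad

end Pool.Agent.T6.H89.Speed
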