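import Pool.Agent.H671R2.PolyAuto

set_option autoImplicit false

/-!
# Approximation of `2 ^ (B2 / B1)` in polynomial time
-/

namespace Pool.Agent.T6.H89.Speed

open Pool.Agent.NPC

/-- one step of the bitwise approximation of `2 ^ (B2 / B1)` -/
def rstep (B1 B2 : ℕ) (s : ℕ × ℕ) : ℕ × ℕ :=
  (if (2 * s.1 + 1) ^ B1 ≤ 2 ^ B2 * (2 * s.2) ^ B1 then 2 * s.1 + 1 else 2 * s.1, 2 * s.2)

theorem rstep_inv {B1 B2 : ℕ} (hB : B2 < B1) (m : ℕ) :
    ((rstep B1 B2)^[m] (1, 1)).2 = 2 ^ m ∧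
    ((rstep B1 B2)^[m] (1, 1)).1 ^ B1 ≤ 2 ^ B2 * (2 ^ m) ^ B1 ∧
    2 ^ B2 * (2 ^ m) ^ B1 < (((rstep B1 B2)^[m] (1, 1)).1 + 1) ^ B1 := by
  induction m with
  | zero =>
    refine ⟨rfl, ?_, ?_⟩
    · simp [Nat.one_le_two_pow]
    · simp only [Function.iterate_zero, id_eq, pow_zero, one_pow, mul_one]
      exact Nat.pow_lt_pow_right (by norm_num) hB
  | succ m ih =>
    rw [Function.iterate_succ_apply']
    obtain ⟨h1, h2, h3⟩ := ih
    set s := (rstep B1 B2)^[m] (1, 1) with hs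
    have h4 : 2 * s.2 = 2 ^ (m + 1) := by rw [h1, pow_succ]; ring
    refine ⟨h4, ?_, ?_⟩
    · simp only [rstep]
      split_ifs with h
      · rwa [h4] at h
      · calc (2 * s.1) ^ B1 = 2 ^ B1 * s.1 ^ B1 := mul_pow _ _ _
          _ ≤ 2 ^ B1 * (2 ^ B2 * (2 ^ m) ^ B1) := Nat.mul_le_mul_left _ h2
          _ = 2 ^ B2 * (2 ^ (m + 1)) ^ B1 := by rw [pow_succ 2 m, mul_pow _ 2]; ring
    · have key : 2 ^ B2 * (2 ^ (m + 1)) ^ B1 < (2 * s.1 + 2) ^ B1 := by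
        calc 2 ^ B2 * (2 ^ (m + 1)) ^ B1 = 2 ^ B1 * (2 ^ B2 * (2 ^ m) ^ B1) := by
              rw [pow_succ 2 m, mul_pow _ 2]; ring
          _ < 2 ^ B1 * (s.1 + 1) ^ B1 := Nat.mul_lt_mul_of_pos_left h3 (by positivity)
          _ = (2 * s.1 + 2) ^ B1 := by rw [← mul_pow]; congr 1
      simp only [rstep]
      split_ifs with h
      · exact key
      · rw [h4] at h
        exact not_le.1 h

theorem rstep_fst_lt {B1 B2 : ℕ} (hB : B2 < B1) (m : ℕ) :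
    ((rstep B1 B2)^[m] (1, 1)).1 < 2 * 2 ^ m := by
  obtain ⟨_, h2, _⟩ := rstep_inv hB m
  have h3 : ((rstep B1 B2)^[m] (1, 1)).1 ^ B1 < (2 * 2 ^ m) ^ B1 := by
    refine lt_of_le_of_lt h2 ?_
    rw [mul_pow]
    exact Nat.mul_lt_mul_of_pos_right (Nat.pow_lt_pow_right (by norm_num) hB) (by positivity)
  exact lt_of_pow_lt_pow_left₀ B1 (by positivity) h3

/-- real form of the invariant -/
theorem rstep_real {B1 B2 : ℕ} (hB : B2 < B1) (m : ℕ) :
    (((rstep B1 B2)^[m] (1, 1)).1 : ℝ) ≤ 2 ^ ((B2 : ℝ) / B1) * 2 ^ m ∧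
    (2 : ℝ) ^ ((B2 : ℝ) / B1) * 2 ^ m < ((rstep B1 B2)^[m] (1, 1)).1 + 1 := by
  obtain ⟨_, h2, h3⟩ := rstep_inv hB m
  have hB1 : B1 ≠ 0 := by omega
  have hB1' : (B1 : ℝ) ≠ 0 := by exact_mod_cast hB1
  have h4 : ((2 : ℝ) ^ ((B2 : ℝ) / B1) * 2 ^ m) ^ B1 = 2 ^ B2 * (2 ^ m) ^ B1 := by
    rw [mul_pow, ← Real.rpow_natCast ((2 : ℝ) ^ ((B2 : ℝ) / B1)), ← Real.rpow_mul zero_le_two,
      div_mul_cancel₀ _ hB1', Real.rpow_natCast]
  constructor
  · refine le_of_pow_le_pow_left₀ hB1 (by positivity) ?_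
    rw [h4]
    exact_mod_cast h2
  · refine lt_of_pow_lt_pow_left₀ B1 (by positivity) ?_
    rw [h4]
    exact_mod_cast h3

variable {α : Type} [TEnc α]

theorem poly_powk {N : α → ℕ} (hN : Poly N) (t : ℕ) : Poly (fun a => N a ^ t) := by
  induction t with
  | zero => simpa using NPC.Poly.const 1
  | succ t ih => simpa only [pow_succ] using Poly.mul ih hN

theorem poly_rstep (B1 B2 : ℕ) : Poly (rstep B1 B2) := by
  unfold rstep
  have h1 : Poly (fun s : ℕ × ℕ => (2 * s.1 + 1) ^ B1) := poly_powk (by fun_prop) B1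
  have h2 : Poly (fun s : ℕ × ℕ => (2 * s.2) ^ B1) := poly_powk (by fun_prop) B1
  fun_prop

theorem poly_root (B1 B2 : ℕ) (hB : B2 < B1) {m : α → ℕ} (hm : UPoly m) :
    Poly (fun a => (rstep B1 B2)^[m a] (1, 1)) := by
  obtain ⟨r, hr⟩ := Poly.sz_le hm
  have h := Poly.iterLen (l := fun a => List.replicate (m a) ()) (s := fun _ => ((1 : ℕ), (1 : ℕ)))
    (F := fun _ => rstep B1 B2) hm (NPC.Poly.const _) ((poly_rstep B1 B2).comp (Poly.snd Poly.id))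
    (Polynomial.C 8 * r + Polynomial.C 20) (fun a k hk => ?_)
  · simpa using h
  · rw [List.length_replicate] at hk
    have h1 := (rstep_inv hB k).1
    have h2 := rstep_fst_lt hB k
    have h3 := sz_nat_le ((rstep B1 B2)^[k] (1, 1)).1
    have h4 := sz_nat_le ((rstep B1 B2)^[k] (1, 1)).2
    have h5 : ((rstep B1 B2)^[k] (1, 1)).1.size ≤ k + 1 := by
      rw [Nat.size_le, pow_succ]
      omega
    have h6 : ((rstep B1 B2)^[k] (1, 1)).2.size ≤ k + 1 := by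
      rw [Nat.size_le, h1]
      exact Nat.pow_lt_pow_right (by norm_num) (by omega)
    have h7 := length_lt_sz (List.replicate (m a) ())
    rw [List.length_replicate] at h7
    have h8 := hr a
    simp only [Polynomial.eval_add, Polynomial.eval_mul, Polynomial.eval_C]
    have h9 : sz ((rstep B1 B2)^[k] (1, 1)) = sz ((rstep B1 B2)^[k] (1, 1)).1 +
        sz ((rstep B1 B2)^[k] (1, 1)).2 + 1 := sz_pair _ _
    rw [h9]
    omega

end Pool.Agent.T6.H89.Speed
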