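import Pool.Agent.T6.H89.Speed.Gad

set_option autoImplicit false

/-!
# Schedules with constant speed on a set of times for every job
-/

namespace Pool.Agent.T6.H89.Speed

open MeasureTheory Set
open scoped ENNReal

section Sets

variable {n : ℕ} (A : Fin n → Set ℝ) (v : Fin n → ℝ)

open Classical in
/-- the schedule which runs the job `i` at the times in `A i` with the speed `v i` -/
noncomputable def ofSets (hA : ∀ i, MeasurableSet (A i)) (hv : ∀ i, 0 < v i)
    (hd : ∀ i j, i ≠ j → Disjoint (A i) (A j)) : Schedule n where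
  speed u := ∑ i, (A i).indicator (fun _ => v i) u
  job u := if h : ∃ i, u ∈ A i then some h.choose else none
  speed_nonneg u := Finset.sum_nonneg fun i _ => indicator_nonneg (fun _ _ => (hv i).le) u
  measurable_speed := Finset.measurable_fun_sum _ fun i _ => measurable_const.indicator (hA i)
  measurable_job i := by
    have : {t | (if h : ∃ i, t ∈ A i then some h.choose else none) = some i} = A i := by
      ext t
      simp only [mem_ofPred_eq]
      constructor
      · intro h
        split_ifs at h with h1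
        have := h1.choose_spec
        rwa [Option.some.inj h] at this
      · intro h
        have h1 : ∃ i, t ∈ A i := ⟨i, h⟩
        rw [dif_pos h1]
        congr 1
        by_contra hne
        exact Set.disjoint_left.1 (hd _ _ hne) h1.choose_spec h
    rw [this]
    exact hA i

variable {A v} (hA : ∀ i, MeasurableSet (A i)) (hv : ∀ i, 0 < v i)
    (hd : ∀ i j, i ≠ j → Disjoint (A i) (A j))

theorem ofSets_job (i : Fin n) (t : ℝ) : (ofSets A v hA hv hd).job t = some i ↔ t ∈ A i := by
  classical
  change (if h : ∃ i, t ∈ A i then some h.choose else none) = some i ↔ _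
  constructor
  · intro h
    split_ifs at h with h1
    have := h1.choose_spec
    rwa [Option.some.inj h] at this
  · intro h
    have h1 : ∃ i, t ∈ A i := ⟨i, h⟩
    rw [dif_pos h1]
    congr 1
    by_contra hne
    exact Set.disjoint_left.1 (hd _ _ hne) h1.choose_spec h

theorem ofSets_at (i : Fin n) : (ofSets A v hA hv hd).at_ i = A i := by
  ext t
  exact ofSets_job hA hv hd i t

theorem ofSets_speed {i : Fin n} {t : ℝ} (ht : t ∈ A i) : (ofSets A v hA hv hd).speed t = v i := by
  change ∑ i, (A i).indicator (fun _ => v i) t = v i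
  rw [Finset.sum_eq_single i]
  · exact indicator_of_mem ht _
  · intro j _ hj
    exact indicator_of_notMem (fun h => Set.disjoint_left.1 (hd _ _ hj) h ht) _
  · intro h
    exact absurd (Finset.mem_univ i) h

theorem ofSets_speed_zero {t : ℝ} (ht : ∀ i, t ∉ A i) : (ofSets A v hA hv hd).speed t = 0 := by
  change ∑ i, (A i).indicator (fun _ => v i) t = 0
  exact Finset.sum_eq_zero fun i _ => indicator_of_notMem (ht i) _

theorem ofSets_done (i : Fin n) (t : ℝ) : (ofSets A v hA hv hd).done i t =
    ENNReal.ofReal (v i) * volume (Ico 0 t ∩ A i) := by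
  rw [Schedule.done_eq, ofSets_at]
  rw [← setLIntegral_const]
  refine setLIntegral_congr_fun (measurableSet_Ico.inter (hA i)) fun u hu => ?_
  rw [ofSets_speed hA hv hd hu.2]

theorem ofSets_energy {α : ℝ} (hα : 0 < α) (h0 : ∀ i, A i ⊆ Ici 0) :
    (ofSets A v hA hv hd).energy α = ∑ i, ENNReal.ofReal (v i ^ α) * volume (A i) := by
  unfold Schedule.energy
  have h1 : ∀ u, ENNReal.ofReal ((ofSets A v hA hv hd).speed u ^ α) =
      ∑ i, (A i).indicator (fun _ => ENNReal.ofReal (v i ^ α)) u := by
    intro u
    by_cases h : ∃ i, u ∈ A i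
    · obtain ⟨i, hi⟩ := h
      rw [ofSets_speed hA hv hd hi, Finset.sum_eq_single i]
      · rw [indicator_of_mem hi]
      · intro j _ hj
        exact indicator_of_notMem (fun h => Set.disjoint_left.1 (hd _ _ hj) h hi) _
      · intro h
        exact absurd (Finset.mem_univ i) h
    · push Not at h
      rw [ofSets_speed_zero hA hv hd h, Real.zero_rpow hα.ne', ENNReal.ofReal_zero]
      exact (Finset.sum_eq_zero fun i _ => indicator_of_notMem (h i) _).symm
  simp only [h1]
  rw [lintegral_finsetSum _ fun i _ => measurable_const.indicator (hA i)]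
  refine Finset.sum_congr rfl fun i _ => ?_
  rw [lintegral_indicator (hA i), setLIntegral_const, Measure.restrict_apply (hA i),
    inter_eq_left.2 (h0 i)]

end Sets

theorem exists_of_sets {J : Jobs} {A : Fin J.length → Set ℝ} {v c : Fin J.length → ℝ} {α : ℝ}
    (hα : 1 < α) (hA : ∀ i, MeasurableSet (A i)) (hv : ∀ i, 0 < v i)
    (hd : ∀ i j, i ≠ j → Disjoint (A i) (A j)) (hr : ∀ i, 0 ≤ rel J i) (hw : ∀ i, 0 < wrk J i)
    (hsub : ∀ i, A i ⊆ Ico (rel J i) (c i))
    (hvol : ∀ i, volume (A i) = ENNReal.ofReal (wrk J i / v i))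
    (hpos : ∀ i, ∀ u ∈ A i, 0 < volume (A i ∩ Ici u)) :
    ∃ σ : Schedule J.length, σ.Feasible J ∧
      σ.energy α = ENNReal.ofReal (∑ i, v i ^ (α - 1) * wrk J i) ∧
      σ.flow J ≤ ∑ i, (c i - rel J i) := by
  have h0 : ∀ i, A i ⊆ Ici 0 := fun i u hu => (hr i).trans (hsub i hu).1
  have hvw : ∀ i, ENNReal.ofReal (v i) * volume (A i) = ENNReal.ofReal (wrk J i) := by
    intro i
    rw [hvol, ← ENNReal.ofReal_mul (hv i).le, mul_div_cancel₀ _ (hv i).ne']
  have hdone : ∀ i, ENNReal.ofReal (wrk J i) ≤ (ofSets A v hA hv hd).done i (c i) := by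
    intro i
    rw [ofSets_done]
    have h1 : Ico 0 (c i) ∩ A i = A i := by
      rw [inter_eq_right]
      intro u hu
      exact ⟨h0 i hu, (hsub i hu).2⟩
    rw [h1, hvw]
  have hfeas : (ofSets A v hA hv hd).Feasible J := by
    refine ⟨fun t ht i hi => ?_, fun i => ⟨c i, hdone i⟩⟩
    rw [ofSets_job] at hi
    refine ⟨(hsub i hi).1, ?_⟩
    rw [ofSets_done, ← hvw]
    have h1 : volume (A i) = volume (Ico 0 t ∩ A i) + volume (A i ∩ Ici t) := by
      rw [← measure_inter_add_sdiff (A i) (measurableSet_Ici (a := t)), add_comm]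
      congr 2
      ext u
      simp only [mem_sdiff, mem_inter_iff, mem_Ico, mem_Ici, not_le]
      exact ⟨fun h => ⟨⟨h0 i h.1, h.2⟩, h.1⟩, fun h => ⟨h.2, h.1.2⟩⟩
    have h2 := hpos i t hi
    have h3 : volume (Ico 0 t ∩ A i) ≠ ∞ := by
      have : volume (Ico 0 t ∩ A i) ≤ volume (A i) := measure_mono inter_subset_right
      rw [hvol] at this
      exact ne_top_of_le_ne_top ENNReal.ofReal_ne_top this
    refine (ENNReal.mul_lt_mul_iff_right (ENNReal.ofReal_pos.2 (hv i)).ne'
      ENNReal.ofReal_ne_top).2 ?_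
    rw [h1]
    exact ENNReal.lt_add_right h3 h2.ne'
  refine ⟨ofSets A v hA hv hd, hfeas, ?_, ?_⟩
  · rw [ofSets_energy hA hv hd (by linarith) h0, ENNReal.ofReal_sum_of_nonneg]
    · refine Finset.sum_congr rfl fun i _ => ?_
      rw [hvol, ← ENNReal.ofReal_mul (Real.rpow_nonneg (hv i).le _), Real.rpow_sub_one (hv i).ne']
      congr 1
      ring
    · intro i _
      exact mul_nonneg (Real.rpow_nonneg (hv i).le _) (hw i).le
  · unfold Schedule.flow
    refine Finset.sum_le_sum fun i _ => ?_
    have := Schedule.completion_le hfeas (hw i) (hdone i)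
    linarith

end Pool.Agent.T6.H89.Speed
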